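import Pool.Agent.Helper49.Agr.Defs
import Pool.Agent.Helper96.AG.Red

/-!
AGR SQF1.  If `p² ∣ n`, `gcd(n,r) = 1` and `(X-1)^n ≡ X^n - 1` mod `(n, X^r - 1)`, then
`(X-1)^p ≡ X^p - 1` mod `(p², X^r - 1)`; more precisely `X^r - 1` divides, over `ZMod p`, the polynomial
`G = ((X-1)^p - (X^p - 1))/p`, which is `∑_{0<i<p} i⁻¹ X^i`.

PROOF.  `R = ZMod (p^2)`, `π : R → ZMod p` the reduction (`ZMod.castHom`); `π` is onto with kernel `(p)`, and
`p * x = 0` iff `π x = 0`; the same for polynomials coefficientwise.  `n = p n'`, `p ∣ n'`.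
(0) Over `ℤ` (or ℕ): `p ∣ C(p,i)` for `0 < i < p`, so `(X-1)^p = X^p - 1 + p g` in `R[X]` where `g` has the
    coefficient `(-1)^(p-i) (C(p,i)/p)` at `0 < i < p` (for `p = 2`: `(X-1)^2 = X^2 - 1 + 2(1 - X)`: also a
    constant coefficient; `-1 ≡ 1`; so choose `g` with the right constant term: `((-1)^p + 1)/p`, which is
    `1` for `p = 2` and `0` for odd `p`).  [For `p = 2` see the remark at the end.]
(1) Cancel Frobenius: over `ZMod p`, `((X-1)^n' - (X^n' - 1))^p = (X-1)^n - (X^n - 1)` is divisible by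
    `X^r - 1`, which is squarefree (`p ∤ r`), so `X^r - 1 ∣ (X-1)^n' - (X^n' - 1)`
    (`Pool.Agent.Helper96.AG.dvd_of_dvd_pow`, `star_map`, `star_prime` in `Helper96/AG/Red.lean`).
(2) Lift to `R[X]`: `(X-1)^n' = (X^n' - 1) + (X^r - 1) A + p B`.
(3) `(X-1)^n = ((X-1)^n')^p ≡ ((X^n' - 1) + p B)^p = (X^n' - 1)^p` mod `X^r - 1` in `R[X]` (`p² = 0`:
    `(a + p b)^p = a^p + p a^(p-1) p b + … = a^p`).
(4) `(X^n' - 1)^p = expand n' ((X-1)^p) = X^n - 1 + p expand n' g`.
(5) The hypothesis, mapped to `R[X]` (`p² ∣ n`), gives `X^r - 1 ∣ p * expand n' g` in `R[X]`; `X^r - 1` is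
    monic, so `X^r - 1 ∣ expand n' ḡ` over `ZMod p`: if `p h = (X^r - 1) A` then `(X^r - 1) Ā = 0` over
    `ZMod p`, `Ā = 0`, `A = p A'`, `p (h - (X^r-1) A') = 0`, so `h̄ = (X^r - 1) Ā'`.
(6) `gcd(n', r) = 1`: choose `u n' ≡ 1` mod `r`; `fold r u 0 (expand n' ḡ) = fold r 1 0 ḡ`, so
    `fold r 1 0 ḡ = 0`, hence `X^r - 1 ∣ ḡ` (each `X^i - X^(i % r)` is divisible by `X^r - 1`).
(7) The coefficients: `fold r 1 0 ḡ = 0` says that for each residue `a`, `∑_{i ≡ a} ḡ_i = 0`.  For `0 < i < p`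
    `(-1)^(p-i) C(p,i)/p = (-1)^(p-i) C(p-1,i-1)/i ≡ (-1)^(p-i) (-1)^(i-1)/i = (-1)^(p-1)/i` mod `p`.
REMARK (`p = 2`): `G` also has the constant term `1`; the statement below excludes `p = 2` from the
sum formula by asking it only for residues `a` with `0 < a < r`.
-/

set_option autoImplicit false

namespace Pool.Agent.Helper49.Agr

open Polynomial

/-- polynomials with integral coefficients which vanish modulo `n` -/
lemma dvd_of_map_eq_zero (n : ℕ) {F : ℤ[X]} (h : F.map (Int.castRingHom (ZMod n)) = 0) :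
    (C (n : ℤ)) ∣ F := by
  rw [C_dvd_iff_dvd_coeff]
  intro i
  have h1 := congrArg (fun q => q.coeff i) h
  simp only [coeff_map, coeff_zero, Int.coe_castRingHom] at h1
  exact (ZMod.intCast_zmod_eq_zero_iff_dvd _ _).1 h1

/-- divisibility by `X^r - 1` modulo `n` -/
lemma exists_of_dvd (n r : ℕ) {F : ℤ[X]}
    (h : (X ^ r - 1 : (ZMod n)[X]) ∣ F.map (Int.castRingHom (ZMod n))) :
    ∃ A B : ℤ[X], F = (X ^ r - 1) * A + C (n : ℤ) * B := by
  obtain ⟨A', hA'⟩ := h
  obtain ⟨A, hA⟩ := Polynomial.map_surjective (Int.castRingHom (ZMod n))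
    (ZMod.ringHom_surjective _) A'
  have h1 : (F - (X ^ r - 1) * A).map (Int.castRingHom (ZMod n)) = 0 := by
    rw [Polynomial.map_sub, Polynomial.map_mul, Polynomial.map_sub, Polynomial.map_pow, map_X,
      Polynomial.map_one, hA, hA', sub_self]
  obtain ⟨B, hB⟩ := dvd_of_map_eq_zero n h1
  exact ⟨A, B, by rw [← hB]; ring⟩

/-- coefficients of a folded polynomial -/
lemma coeff_fold {R : Type} [CommRing R] (r u a N : ℕ) (F : R[X]) (hN : F.natDegree < N) :
    (fold r u 0 F).coeff a = ∑ i ∈ (Finset.range N).filter (fun i => (u * i) % r = a),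
      F.coeff i := by
  conv_lhs => rw [as_sum_range' _ _ hN, map_sum, finsetSum_coeff]
  rw [Finset.sum_filter]
  refine Finset.sum_congr rfl fun i _ => ?_
  rw [fold_monomial, coeff_monomial, add_zero]

lemma fold_expand {R : Type} [CommRing R] (r u m : ℕ) (h : u * m ≡ 1 [MOD r]) (F : R[X]) :
    fold r u 0 (F.comp (X ^ m)) = fold r 1 0 F := by
  induction F using Polynomial.induction_on' with
  | add f g hf hg => rw [add_comp, map_add, map_add, hf, hg]
  | monomial i a =>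
    rw [← C_mul_X_pow_eq_monomial, mul_comp, C_comp, pow_comp, X_comp, ← pow_mul,
      fold_C_mul_X_pow, fold_C_mul_X_pow]
    congr 2
    rw [add_zero, add_zero, ← mul_assoc]
    exact h.mul_right i

/-- if `p² ∣ n` then the sums of `1/i` over `0 < i < p`, `i ≡ a` mod `r`, vanish mod `p` -/
theorem sqf1 (p : ℕ) [Fact p.Prime] (n r : ℕ) (hn : p ^ 2 ∣ n) (hn0 : 0 < n)
    (hcop : Nat.Coprime n r)
    (h : (X ^ r - 1 : (ZMod n)[X]) ∣ (X - 1) ^ n - (X ^ n - 1)) (a : ℕ) (ha : 0 < a) (har : a < r) :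
    ∑ i ∈ (Finset.Ioo 0 p).filter (fun i => i % r = a), ((i : ZMod p))⁻¹ = 0 := by
  classical
  have hp : p.Prime := Fact.out
  have hp0 : (p : ℤ) ≠ 0 := by exact_mod_cast hp.ne_zero
  obtain ⟨n', hn'⟩ : p ∣ n := (dvd_pow_self p two_ne_zero).trans hn
  have hpr : ¬ p ∣ r := by
    intro h1
    have h2 := Nat.dvd_gcd ((dvd_pow_self p two_ne_zero).trans hn) h1
    rw [hcop] at h2
    exact hp.one_lt.ne' (Nat.dvd_one.1 h2)
  have hrF : (r : ZMod p) ≠ 0 := fun h1 => hpr ((CharP.cast_eq_zero_iff (ZMod p) p _).1 h1)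
  -- the polynomial `g`
  have hg0 : (((X : ℤ[X]) - 1) ^ p - (X ^ p - 1)).map (Int.castRingHom (ZMod p)) = 0 := by
    simp only [Polynomial.map_sub, Polynomial.map_pow, map_X, Polynomial.map_one]
    rw [sub_pow_expChar, one_pow, sub_self]
  obtain ⟨g, hg⟩ := dvd_of_map_eq_zero p hg0
  -- the first congruence
  have h1 : (X ^ r - 1 : (ZMod p)[X]) ∣
      (((X : ℤ[X]) - 1) ^ n' - (X ^ n' - 1)).map (Int.castRingHom (ZMod p)) := by
    simp only [Polynomial.map_sub, Polynomial.map_pow, map_X, Polynomial.map_one]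
    refine Pool.Agent.Helper96.AG.star_prime (a := 1) (n := n) (by rw [hn', pow_one]) hrF ?_
    exact Pool.Agent.Helper96.AG.star_map ⟨n', hn'⟩ h
  obtain ⟨A2, B2, h2⟩ := exists_of_dvd p r h1
  -- the second congruence
  have h3 : (X ^ r - 1 : (ZMod (p ^ 2))[X]) ∣
      (((X : ℤ[X]) - 1) ^ n - (X ^ n - 1)).map (Int.castRingHom (ZMod (p ^ 2))) := by
    simp only [Polynomial.map_sub, Polynomial.map_pow, map_X, Polynomial.map_one]
    exact Pool.Agent.Helper96.AG.star_map hn h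
  obtain ⟨A1, B1, h4⟩ := exists_of_dvd (p ^ 2) r h3
  have hC2 : (C ((p ^ 2 : ℕ) : ℤ) : ℤ[X]) = C (p : ℤ) ^ 2 := by
    rw [← C_pow]; push_cast; rfl
  -- `(X-1)^n`
  have h5 : ((X ^ n' - 1 : ℤ[X]) + C (p : ℤ) * B2 + (X ^ r - 1) * A2) = (X - 1) ^ n' := by
    have : (X - 1 : ℤ[X]) ^ n' = ((X - 1) ^ n' - (X ^ n' - 1)) + (X ^ n' - 1) := by ring
    rw [this, h2]; ring
  obtain ⟨A3, h6⟩ : (X ^ r - 1 : ℤ[X]) ∣ ((X - 1) ^ n') ^ p -
      ((X ^ n' - 1 : ℤ[X]) + C (p : ℤ) * B2) ^ p := by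
    refine Dvd.dvd.trans ?_ (sub_dvd_pow_sub_pow _ _ p)
    rw [← h5]
    exact ⟨A2, by ring⟩
  obtain ⟨B3, h7⟩ : (C (p : ℤ) ^ 2 : ℤ[X]) ∣
      ((X ^ n' - 1 : ℤ[X]) + C (p : ℤ) * B2) ^ p - (X ^ n' - 1) ^ p := by
    have h8 : ((p : ℤ[X])) ∣ ((X ^ n' - 1 : ℤ[X]) + C (p : ℤ) * B2) - (X ^ n' - 1) :=
      ⟨B2, by rw [add_sub_cancel_left]; simp⟩
    have h9 := dvd_sub_pow_of_dvd_sub h8 1
    rw [pow_one, show 1 + 1 = 2 by rfl] at h9
    convert h9 using 1
    simp
  have h8 : (X ^ n' - 1 : ℤ[X]) ^ p = (X ^ n - 1) + C (p : ℤ) * g.comp (X ^ n') := by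
    have h9 := congrArg (fun q : ℤ[X] => q.comp (X ^ n')) hg
    simp only [sub_comp, pow_comp, X_comp, one_comp, mul_comp, C_comp] at h9
    rw [← pow_mul, Nat.mul_comm n' p, ← hn'] at h9
    rw [← h9]; ring
  have hpn : ((X - 1 : ℤ[X]) ^ n') ^ p = (X - 1) ^ n := by
    rw [← pow_mul, Nat.mul_comm n' p, ← hn']
  -- `p g(X^n')`
  have h9 : C (p : ℤ) * g.comp (X ^ n') =
      (X ^ r - 1) * (A1 - A3) + C (p : ℤ) ^ 2 * (B1 - B3) := by
    have e1 : (X - 1 : ℤ[X]) ^ n = (X ^ n - 1) + (X ^ r - 1) * A1 + C (p : ℤ) ^ 2 * B1 := by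
      rw [← hC2]
      linear_combination h4
    rw [hpn] at h6
    linear_combination -h6 - h7 - h8 + e1
  have h10 : C (p : ℤ) ∣ A1 - A3 := by
    have hprime : Prime (C (p : ℤ) : ℤ[X]) :=
      prime_C_iff.2 (Nat.prime_iff_prime_int.1 hp)
    have h11 : C (p : ℤ) ∣ (X ^ r - 1 : ℤ[X]) * (A1 - A3) :=
      ⟨g.comp (X ^ n') - C (p : ℤ) * (B1 - B3), by linear_combination -h9⟩
    rcases hprime.dvd_or_dvd h11 with h12 | h12
    · exfalso
      rw [C_dvd_iff_dvd_coeff] at h12
      have h13 := h12 r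
      have hr0 : r ≠ 0 := by omega
      rw [coeff_sub, coeff_X_pow_self, coeff_one, if_neg hr0, sub_zero] at h13
      exact (Nat.prime_iff_prime_int.1 hp).not_isUnit (isUnit_of_dvd_one h13)
    · exact h12
  obtain ⟨A4, hA4⟩ := h10
  have h11 : g.comp (X ^ n') = (X ^ r - 1) * A4 + C (p : ℤ) * (B1 - B3) := by
    have hCp : (C (p : ℤ) : ℤ[X]) ≠ 0 := by rw [Ne, C_eq_zero]; exact hp0
    refine mul_left_cancel₀ hCp ?_
    rw [h9, hA4]; ring
  set gb := g.map (Int.castRingHom (ZMod p)) with hgb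
  have h12 : (X ^ r - 1 : (ZMod p)[X]) ∣ gb.comp (X ^ n') := by
    have h13 := congrArg (Polynomial.map (Int.castRingHom (ZMod p))) h11
    rw [Polynomial.map_comp, Polynomial.map_add, Polynomial.map_mul, Polynomial.map_mul,
      Polynomial.map_sub, Polynomial.map_pow, Polynomial.map_pow, map_X, Polynomial.map_one,
      map_C] at h13
    have h14 : Int.castRingHom (ZMod p) (p : ℤ) = 0 := by simp
    rw [h14, C_0, zero_mul, add_zero] at h13
    exact ⟨_, h13⟩
  -- fold
  have hcop' : Nat.Coprime n' r := by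
    rw [hn'] at hcop
    exact Nat.Coprime.coprime_mul_left hcop
  obtain ⟨u, -, hu⟩ := Nat.exists_mul_mod_eq_one_of_coprime hcop' (by omega)
  have hu' : u * n' ≡ 1 [MOD r] := by
    rw [Nat.ModEq, Nat.mul_comm, hu, Nat.mod_eq_of_lt (by omega)]
  have h13 : fold r 1 0 gb = 0 := by
    rw [← fold_expand r u n' hu' gb]
    exact fold_eq_zero h12
  -- coefficients
  have hcoef : ∀ i, (p : ℤ) * g.coeff i = (((X : ℤ[X]) - 1) ^ p - (X ^ p - 1)).coeff i := by
    intro i
    rw [hg, coeff_C_mul]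
  have hX1 : ∀ i, (((X : ℤ[X]) - 1) ^ p).coeff i = (-1) ^ (p - i) * (p.choose i : ℤ) := by
    intro i
    have : (X - 1 : ℤ[X]) = X + C (-1) := by simp [sub_eq_add_neg]
    rw [this, coeff_X_add_C_pow]
  have hbig : ∀ i, p ≤ i → gb.coeff i = 0 := by
    intro i hi
    have h14 : g.coeff i = 0 := by
      have h15 := hcoef i
      rw [coeff_sub, hX1, coeff_sub, coeff_X_pow, coeff_one, if_neg (show i ≠ 0 by
        have := hp.pos; omega), sub_zero] at h15
      rcases Nat.eq_or_lt_of_le hi with h16 | h16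
      · rw [← h16, Nat.sub_self, pow_zero, Nat.choose_self, if_pos rfl] at h15
        rw [← h16]
        have : (p : ℤ) * g.coeff p = 0 := by rw [h15]; norm_num
        exact (mul_eq_zero.1 this).resolve_left hp0
      · rw [Nat.choose_eq_zero_of_lt h16, if_neg (by omega)] at h15
        have : (p : ℤ) * g.coeff i = 0 := by rw [h15]; norm_num
        exact (mul_eq_zero.1 this).resolve_left hp0
    rw [hgb, coeff_map, h14, map_zero]
  have hsmall : ∀ i, 0 < i → i < p → gb.coeff i = (-1) ^ (p - 1) * ((i : ZMod p))⁻¹ := by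
    intro i hi0 hip
    have hiF : (i : ZMod p) ≠ 0 := by
      intro h14
      rw [ZMod.natCast_eq_zero_iff] at h14
      have := Nat.le_of_dvd hi0 h14
      omega
    have h15 := hcoef i
    rw [coeff_sub, hX1, coeff_sub, coeff_X_pow, coeff_one, if_neg (by omega), if_neg (by omega),
      sub_zero, sub_zero] at h15
    have h16 : (i : ℤ) * (p.choose i : ℤ) = (p : ℤ) * ((p - 1).choose (i - 1) : ℤ) := by
      have h17 := Nat.add_one_mul_choose_eq (p - 1) (i - 1)
      rw [show p - 1 + 1 = p by omega, show i - 1 + 1 = i by omega] at h17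
      rw [mul_comm]
      exact_mod_cast h17.symm
    have h17 : (i : ℤ) * g.coeff i = (-1) ^ (p - i) * ((p - 1).choose (i - 1) : ℤ) := by
      refine mul_left_cancel₀ hp0 ?_
      calc (p : ℤ) * ((i : ℤ) * g.coeff i) = (i : ℤ) * ((p : ℤ) * g.coeff i) := by ring
        _ = (-1) ^ (p - i) * ((i : ℤ) * (p.choose i : ℤ)) := by rw [h15]; ring
        _ = _ := by rw [h16]; ring
    have h18 : (i : ZMod p) * gb.coeff i = (-1) ^ (p - i) * (((p - 1).choose (i - 1) : ℕ) : ZMod p) := by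
      have h19 := congrArg (Int.castRingHom (ZMod p)) h17
      rw [map_mul, map_mul, map_pow, map_neg, map_one] at h19
      rw [hgb, coeff_map]
      simpa using h19
    have h19 : (((p - 1).choose (i - 1) : ℕ) : ZMod p) = (-1) ^ (i - 1) := by
      have h20 : ∀ k, k < p → (((p - 1).choose k : ℕ) : ZMod p) = (-1) ^ k := by
        intro k
        induction k with
        | zero => intro _; simp
        | succ k ih =>
          intro hk
          have h21 := ih (by omega)
          have h22 : (p.choose (k + 1) : ZMod p) = 0 := by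
            rw [ZMod.natCast_eq_zero_iff]
            exact hp.dvd_choose_self (by omega) hk
          have h23 : p.choose (k + 1) = (p - 1).choose k + (p - 1).choose (k + 1) := by
            conv_lhs => rw [show p = (p - 1) + 1 by omega]
            exact Nat.choose_succ_succ _ _
          rw [h23, Nat.cast_add, h21] at h22
          rw [pow_succ]
          linear_combination h22
      exact h20 _ (by omega)
    rw [h19, ← pow_add, show p - i + (i - 1) = p - 1 by omega] at h18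
    rw [← h18, mul_comm (i : ZMod p), mul_assoc, mul_inv_cancel₀ hiF, mul_one]
  have h14 := congrArg (fun q => q.coeff a) h13
  have h15 : gb.natDegree < p + gb.natDegree + 1 := by omega
  simp only [coeff_zero] at h14
  rw [coeff_fold r 1 a _ gb h15] at h14
  have h16 : ∑ i ∈ (Finset.range (p + gb.natDegree + 1)).filter (fun i => (1 * i) % r = a),
      gb.coeff i = ∑ i ∈ (Finset.Ioo 0 p).filter (fun i => i % r = a),
        (-1) ^ (p - 1) * ((i : ZMod p))⁻¹ := by
    symm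
    refine (Finset.sum_subset_zero_on_sdiff ?_ ?_ ?_)
    · intro i hi
      rw [Finset.mem_filter, Finset.mem_Ioo] at hi
      rw [Finset.mem_filter, Finset.mem_range, Nat.one_mul]
      exact ⟨by omega, hi.2⟩
    · intro i hi
      rw [Finset.mem_sdiff, Finset.mem_filter, Finset.mem_filter, Finset.mem_range, Finset.mem_Ioo,
        Nat.one_mul] at hi
      apply hbig
      by_contra hc
      apply hi.2
      refine ⟨⟨?_, by omega⟩, hi.1.2⟩
      rcases Nat.eq_zero_or_pos i with h17 | h17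
      · exfalso
        have h18 := hi.1.2
        rw [h17, Nat.zero_mod] at h18
        omega
      · exact h17
    · intro i hi
      rw [Finset.mem_filter, Finset.mem_Ioo] at hi
      exact (hsmall i hi.1.1 hi.1.2).symm
  rw [h16, ← Finset.mul_sum] at h14
  exact (mul_eq_zero.1 h14).resolve_left (pow_ne_zero _ (neg_ne_zero.2 one_ne_zero))

end Pool.Agent.Helper49.Agr
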