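import Pool.Agent.Helper49.Agr.Defs

/-!
AGR SQF2.  If all the sums of `1/i` over `0 < i < p`, `i ≡ a` mod `r` (`0 < a < r`) vanish mod `p`, then
`r^2 + 2 ≤ 2 p`.

PROOF.  Let `J = (p-1)/r`, `b = (p-1) % r`, so `p - 1 = J r + b`, `0 ≤ b < r`.  Let `0 < a < r`.  The `i` with
`0 < i < p`, `i % r = a` are `i = a + j r`, `0 ≤ j < n_a`, where `n_a = J + 1` if `a ≤ b` and `n_a = J` if
`a > b`.  For `n ≥ 1` let `Q_n = ∏_{j<n} (X + j r) ∈ (ZMod p)[X]`, so `Q_n' = ∑_j ∏_{j' ≠ j} (X + j' r)`,
`deg Q_n' = n - 1` with leading coefficient `n` if `(n : ZMod p) ≠ 0`, and for `n = n_a`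
`Q_n'(a) = Q_n(a) ∑_j (a + j r)⁻¹ = 0` (all `a + j r` are nonzero mod `p`, being in `(0,p)`).
So `#{a : 0 < a < r, n_a = n} ≤ n - 1` if `n ≥ 1`, `n < p`.  (The `a < r` are distinct mod `p` when
`a ≤ b ≤ p - 1` or `J ≥ 1`, `a < r ≤ p - 1`.)
* `a ≤ b`: there are `b` such `a`, so `b ≤ J` provided `J + 1 < p`.
* `b < a < r`: there are `r - 1 - b` such `a`, so if `J ≥ 1`: `r - 1 - b ≤ J - 1`.
`r = 0`: `2 ≤ 2p`.  `r = 1`: `3 ≤ 2p`.  `r = 2`: `6 ≤ 2p` i.e. `p ≥ 3` (true since `p` is coprime to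
`r = 2`).  Let `r ≥ 3`.  Then `J + 1 ≤ (p-1)/3 + 1 < p` (`p ≥ 2`).  If `J = 0` then
`b = p - 1 ≥ 1` but `b ≤ J = 0`: contradiction.  So `J ≥ 1` and `r - 1 ≤ 2J - 1`, `r ≤ 2J`,
`p - 1 ≥ J r ≥ r²/2`, `2p ≥ r² + 2`.
-/

set_option autoImplicit false

namespace Pool.Agent.Helper49.Agr

open Polynomial

/-- few `a` satisfy `∑_{j<n} 1/(a + j r) = 0` -/
lemma few (p : ℕ) [Fact p.Prime] (r n : ℕ) (hn : (n : ZMod p) ≠ 0) (S : Finset ℕ)
    (hS : ∀ a ∈ S, a < p) (h0 : ∀ a ∈ S, ∀ j < n, ((a + j * r : ℕ) : ZMod p) ≠ 0)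
    (h : ∀ a ∈ S, ∑ j ∈ Finset.range n, (((a + j * r : ℕ) : ZMod p))⁻¹ = 0) : S.card + 1 ≤ n := by
  classical
  have hn1 : 1 ≤ n := by
    rcases Nat.eq_zero_or_pos n with h1 | h1
    · rw [h1, Nat.cast_zero] at hn; exact absurd rfl hn
    · exact h1
  let Q : (ZMod p)[X] := ∏ j ∈ Finset.range n, (X + C ((j * r : ℕ) : ZMod p))
  have hmonic : Q.Monic := monic_prod_of_monic _ _ fun j _ => monic_X_add_C _
  have hdeg : Q.natDegree = n := by
    rw [natDegree_prod_of_monic _ _ fun j _ => monic_X_add_C _]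
    simp only [natDegree_X_add_C, Finset.sum_const, Finset.card_range, smul_eq_mul, mul_one]
  have hQn : Q.coeff n = 1 := by
    have := hmonic.coeff_natDegree
    rwa [hdeg] at this
  have hne : derivative Q ≠ 0 := by
    intro h1
    have h2 : (derivative Q).coeff (n - 1) = n := by
      rw [coeff_derivative, show n - 1 + 1 = n by omega, hQn, one_mul]
      rw [Nat.cast_sub hn1]; ring
    rw [h1, coeff_zero] at h2
    exact hn h2.symm
  have hdd : (derivative Q).natDegree ≤ n - 1 := by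
    have := natDegree_derivative_le Q
    rwa [hdeg] at this
  have hroot : ∀ a ∈ S, (derivative Q).IsRoot (a : ZMod p) := by
    intro a ha
    have hfac : ∀ j ∈ Finset.range n, eval (a : ZMod p) (X + C ((j * r : ℕ) : ZMod p)) =
        ((a + j * r : ℕ) : ZMod p) := by
      intro j _
      rw [eval_add, eval_X, eval_C, Nat.cast_add]
    rw [IsRoot.def, derivative_prod_finset, eval_finsetSum]
    have h1 : ∀ j ∈ Finset.range n, eval (a : ZMod p)
        ((∏ j' ∈ (Finset.range n).erase j, (X + C ((j' * r : ℕ) : ZMod p))) *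
          derivative (X + C ((j * r : ℕ) : ZMod p))) =
        (∏ j' ∈ Finset.range n, ((a + j' * r : ℕ) : ZMod p)) * (((a + j * r : ℕ) : ZMod p))⁻¹ := by
      intro j hj
      rw [derivative_add, derivative_X, derivative_C, add_zero, mul_one, eval_prod,
        ← Finset.mul_prod_erase _ _ hj, mul_comm ((a + j * r : ℕ) : ZMod p), mul_assoc,
        mul_inv_cancel₀ (h0 a ha j (Finset.mem_range.1 hj)), mul_one]
      exact Finset.prod_congr rfl fun j' hj' => hfac j' (Finset.mem_of_mem_erase hj')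
    rw [Finset.sum_congr rfl h1, ← Finset.mul_sum, h a ha, mul_zero]
  have hsub : S.image (fun a : ℕ => (a : ZMod p)) ⊆ (derivative Q).roots.toFinset := by
    intro x hx
    obtain ⟨a, ha, rfl⟩ := Finset.mem_image.1 hx
    rw [Multiset.mem_toFinset, mem_roots hne]
    exact hroot a ha
  have hcard : (S.image (fun a : ℕ => (a : ZMod p))).card = S.card := by
    refine Finset.card_image_of_injOn ?_
    intro a ha a' ha' he
    have h2 : (a : ZMod p) = (a' : ZMod p) := he
    rw [ZMod.natCast_eq_natCast_iff, Nat.ModEq, Nat.mod_eq_of_lt (hS a ha),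
      Nat.mod_eq_of_lt (hS a' ha')] at h2
    exact h2
  have h3 := (Finset.card_le_card hsub).trans ((Multiset.toFinset_card_le _).trans
    (card_roots' (derivative Q)))
  omega

theorem sqf2 (p : ℕ) [Fact p.Prime] (r : ℕ) (hpr : Nat.Coprime p r)
    (h : ∀ a, 0 < a → a < r →
      ∑ i ∈ (Finset.Ioo 0 p).filter (fun i => i % r = a), ((i : ZMod p))⁻¹ = 0) :
    r ^ 2 + 2 ≤ 2 * p := by
  classical
  have hp2 : 2 ≤ p := (Fact.out : p.Prime).two_le
  rcases Nat.lt_or_ge r 3 with hr | hr
  · interval_cases r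
    · omega
    · omega
    · rcases Nat.eq_or_lt_of_le hp2 with h1 | h1
      · rw [← h1] at hpr; norm_num at hpr
      · omega
  have hr0 : 0 < r := by omega
  have hJ := Nat.div_add_mod (p - 1) r
  have hb := Nat.mod_lt (p - 1) hr0
  set J := (p - 1) / r with hJd
  set b := (p - 1) % r with hbd
  clear_value J b
  -- the sums
  have hsum : ∀ a n, 0 < a → a < r → (∀ j, j < n ↔ a + j * r < p) →
      ∑ j ∈ Finset.range n, (((a + j * r : ℕ) : ZMod p))⁻¹ = 0 := by
    intro a n ha har hn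
    rw [← h a ha har]
    refine Finset.sum_bij (fun j _ => a + j * r) ?_ ?_ ?_ ?_
    · intro j hj
      rw [Finset.mem_filter, Finset.mem_Ioo]
      refine ⟨⟨by omega, (hn j).1 (Finset.mem_range.1 hj)⟩, ?_⟩
      rw [Nat.add_mul_mod_self_right, Nat.mod_eq_of_lt har]
    · intro j _ j' _ he
      have h1 : j * r = j' * r := by omega
      exact Nat.eq_of_mul_eq_mul_right hr0 h1
    · intro i hi
      rw [Finset.mem_filter, Finset.mem_Ioo] at hi
      have h2 := Nat.mod_add_div i r
      refine ⟨i / r, ?_, ?_⟩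
      · rw [Finset.mem_range, hn, ← hi.2]
        have : i / r * r = r * (i / r) := mul_comm _ _
        omega
      · rw [← hi.2, mul_comm (i / r) r]
        exact h2
    · intro j _; rfl
  have hne : ∀ a n, 0 < a → (∀ j, j < n ↔ a + j * r < p) → ∀ j < n,
      ((a + j * r : ℕ) : ZMod p) ≠ 0 := by
    intro a n ha hn j hj h1
    rw [ZMod.natCast_eq_zero_iff] at h1
    have h2 := Nat.le_of_dvd (by omega) h1
    have h3 := (hn j).1 hj
    omega
  -- `a ≤ b`
  have hn1 : ∀ a, 0 < a → a ≤ b → ∀ j, j < J + 1 ↔ a + j * r < p := by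
    intro a ha hab j
    constructor
    · intro hj
      have : j * r ≤ r * J := by rw [mul_comm r J]; exact Nat.mul_le_mul_right _ (by omega)
      omega
    · intro hj
      by_contra hc
      have : (J + 1) * r ≤ j * r := Nat.mul_le_mul_right _ (by omega)
      have h2 : (J + 1) * r = r * J + r := by ring
      omega
  have hn2 : ∀ a, b < a → a < r → ∀ j, j < J ↔ a + j * r < p := by
    intro a hab har j
    constructor
    · intro hj
      have : (j + 1) * r ≤ r * J := by rw [mul_comm r J]; exact Nat.mul_le_mul_right _ (by omega)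
      have h2 : (j + 1) * r = j * r + r := by ring
      omega
    · intro hj
      by_contra hc
      have : r * J ≤ j * r := by rw [mul_comm r J]; exact Nat.mul_le_mul_right _ (by omega)
      omega
  have hJp : J + 1 < p ∨ p = 2 := by
    have h1 : J * 3 ≤ r * J := by rw [mul_comm r J]; exact Nat.mul_le_mul_left _ hr
    omega
  have hcast : ∀ n : ℕ, 0 < n → n < p → (n : ZMod p) ≠ 0 := by
    intro n h1 h2 h3
    rw [ZMod.natCast_eq_zero_iff] at h3
    have := Nat.le_of_dvd h1 h3
    omega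
  have hJp' : J + 1 < p := by
    rcases hJp with h1 | h1
    · exact h1
    · have h2 : J * 3 ≤ r * J := by rw [mul_comm r J]; exact Nat.mul_le_mul_left _ hr
      have : J = 0 := by omega
      omega
  have hA : b ≤ J := by
    have h1 := few p r (J + 1) (hcast _ (by omega) hJp') (Finset.Icc 1 b)
      (fun a ha => by rw [Finset.mem_Icc] at ha; omega)
      (fun a ha => by
        rw [Finset.mem_Icc] at ha
        exact hne a _ (by omega) (hn1 a (by omega) ha.2))
      (fun a ha => by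
        rw [Finset.mem_Icc] at ha
        exact hsum a _ (by omega) (by omega) (hn1 a (by omega) ha.2))
    rw [Nat.card_Icc] at h1
    omega
  have hJ1 : 1 ≤ J := by
    rcases Nat.eq_zero_or_pos J with h1 | h1
    · rw [h1, Nat.mul_zero] at hJ
      omega
    · exact h1
  have hB : r ≤ b + J := by
    have hrJ : r ≤ r * J := Nat.le_mul_of_pos_right _ hJ1
    have h1 := few p r J (hcast _ (by omega) (by omega)) (Finset.Ioo b r)
      (fun a ha => by rw [Finset.mem_Ioo] at ha; omega)
      (fun a ha => by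
        rw [Finset.mem_Ioo] at ha
        exact hne a _ (by omega) (hn2 a ha.1 ha.2))
      (fun a ha => by
        rw [Finset.mem_Ioo] at ha
        exact hsum a _ (by omega) ha.2 (hn2 a ha.1 ha.2))
    rw [Nat.card_Ioo] at h1
    omega
  have h5 : r ≤ 2 * J := by omega
  have h6 : r * r ≤ r * (2 * J) := Nat.mul_le_mul_left _ h5
  have h7 : r * (2 * J) = 2 * (r * J) := by ring
  rw [pow_two]
  omega

end Pool.Agent.Helper49.Agr
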