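import Pool.Agent.Helper49.Agr.Local
import Pool.Agent.Helper49.Agr.Sqf
import Pool.Agent.Helper49.Agr.Sqf2
import Pool.Agent.Helper96.AG.Red

/-!
AGR GLOBAL: the consequences of the local theorem.
-/

set_option autoImplicit false

namespace Pool.Agent.Helper49.Agr

open Polynomial

/-- square divisors -/
theorem square_dvd {n r p : ℕ} (hn : 0 < n) (hcop : Nat.Coprime n r)
    (h : (X ^ r - 1 : (ZMod n)[X]) ∣ (X - 1) ^ n - (X ^ n - 1)) (hp : p.Prime)
    (hpn : p ^ 2 ∣ n) : r ^ 2 + 2 ≤ 2 * p := by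
  have : Fact p.Prime := ⟨hp⟩
  have hpr : Nat.Coprime p r := Nat.Coprime.coprime_dvd_left ((dvd_pow_self p two_ne_zero).trans hpn) hcop
  exact sqf2 p r hpr (fun a ha har => sqf1 p n r hpn hn hcop h a ha har)

/-- the local structure at a good prime -/
theorem good_prime {n r p : ℕ} (hn : 0 < n) (hcop : Nat.Coprime n r)
    (h : (X ^ r - 1 : (ZMod n)[X]) ∣ (X - 1) ^ n - (X ^ n - 1)) (hp : p.Prime)
    (hpn : p ∣ n) (hne : n ≠ p) (h8 : 8 * n ≤ p * r ^ 2) :
    ¬ p ^ 2 ∣ n ∧ (∃ j, n ≡ p ^ j [MOD r]) ∧ p ^ orderOf (p : ZMod r) * p ≤ n := by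
  have hF : Fact p.Prime := ⟨hp⟩
  have hpr : Nat.Coprime p r := Nat.Coprime.coprime_dvd_left hpn hcop
  obtain ⟨m, hm⟩ := hpn
  have hm0 : 0 < m := by
    rcases Nat.eq_zero_or_pos m with h0 | h0
    · rw [h0, mul_zero] at hm; omega
    · exact h0
  have h8m : 8 * m ≤ r ^ 2 := by
    have h1 : p * (8 * m) ≤ p * r ^ 2 := by
      calc p * (8 * m) = 8 * n := by rw [hm]; ring
        _ ≤ _ := h8
    exact Nat.le_of_mul_le_mul_left h1 hp.pos
  have hsq : ¬ p ^ 2 ∣ n := by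
    intro h2
    have h3 := square_dvd hn hcop h hp h2
    have h4 : p ∣ m := by
      rw [hm, pow_two] at h2
      exact Nat.dvd_of_mul_dvd_mul_left hp.pos h2
    have h5 := Nat.le_of_dvd hm0 h4
    omega
  have hpm : ¬ p ∣ m := by
    intro h4
    apply hsq
    rw [hm, pow_two]
    exact Nat.mul_dvd_mul_left p h4
  have hm2 : 2 ≤ m := by
    by_contra hc
    have : m = 1 := by omega
    rw [this, mul_one] at hm
    exact hne hm
  have hmr : Nat.Coprime m r := Nat.Coprime.coprime_dvd_left ⟨p, by rw [hm]; ring⟩ hcop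
  have hrF : (r : ZMod p) ≠ 0 := by
    intro h1
    have h2 : p ∣ r := (CharP.cast_eq_zero_iff (ZMod p) p _).1 h1
    have h3 : p ∣ 1 := by
      have := Nat.dvd_gcd (dvd_refl p) h2
      rwa [hpr] at this
    exact hp.one_lt.ne' (Nat.dvd_one.1 h3)
  have hloc : Loc p r m :=
    Pool.Agent.Helper96.AG.star_prime (a := 1) (by rw [pow_one]; exact hm) hrF
      (Pool.Agent.Helper96.AG.star_map ⟨m, hm⟩ h)
  obtain ⟨⟨j, hj⟩, a, b, hba, hab, hle⟩ := local_thm p r m hpr hmr hpm hm2 h8m hloc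
  refine ⟨hsq, ⟨j + 1, ?_⟩, ?_⟩
  · rw [hm, pow_succ, mul_comm]
    exact hj.mul_right p
  · -- order
    have hunit : IsUnit (p : ZMod r) := (ZMod.isUnit_iff_coprime p r).2 hpr
    have h1 : (p : ZMod r) ^ (a - b) = 1 := by
      have h2 : (p : ZMod r) ^ a = (p : ZMod r) ^ b := by
        have := (ZMod.natCast_eq_natCast_iff _ _ _).2 hab
        simpa using this
      have h3 : (p : ZMod r) ^ b * (p : ZMod r) ^ (a - b) = (p : ZMod r) ^ b * 1 := by
        rw [← pow_add, Nat.add_sub_cancel' hba.le, h2, mul_one]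
      exact (hunit.pow b).mul_left_cancel h3
    have h2 : orderOf (p : ZMod r) ≤ a - b :=
      orderOf_le_of_pow_eq_one (by omega) h1
    have h3 : p ^ orderOf (p : ZMod r) ≤ p ^ (a - b) := Nat.pow_le_pow_right hp.pos h2
    have h4 : p ^ a = p ^ b * p ^ (a - b) := by
      rw [← pow_add, Nat.add_sub_cancel' hba.le]
    have h5 : 1 ≤ p ^ b := Nat.one_le_pow _ _ hp.pos
    have h6 : 1 ≤ p ^ (a - b) := Nat.one_le_pow _ _ hp.pos
    have h7 : p ^ (a - b) ≤ m := by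
      rw [h4] at hle
      have h8 : p ^ b + p ^ (a - b) ≤ p ^ b * p ^ (a - b) + 1 := by nlinarith
      omega
    calc p ^ orderOf (p : ZMod r) * p ≤ m * p := Nat.mul_le_mul_right _ (h3.trans h7)
      _ = n := by rw [hm]; ring

lemma order_pos {p r : ℕ} (hr : 0 < r) (hpr : Nat.Coprime p r) : 0 < orderOf (p : ZMod r) := by
  have : NeZero r := ⟨hr.ne'⟩
  have hunit : IsUnit (p : ZMod r) := (ZMod.isUnit_iff_coprime p r).2 hpr
  obtain ⟨u, hu⟩ := hunit
  rw [← hu, orderOf_units]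
  exact orderOf_pos u

/-- a good prime above `n^(1/4)` -/
theorem large_prime {n r p : ℕ} (hn : 0 < n) (hr : 0 < r) (hcop : Nat.Coprime n r)
    (h : (X ^ r - 1 : (ZMod n)[X]) ∣ (X - 1) ^ n - (X ^ n - 1)) (hp : p.Prime)
    (hpn : p ∣ n) (h4 : n < p ^ 4) (h8 : 8 * n ≤ p * r ^ 2) :
    n.Prime ∨ n ^ 2 ≡ 1 [MOD r] := by
  by_cases hne : n = p
  · left; rw [hne]; exact hp
  right
  have hpr : Nat.Coprime p r := Nat.Coprime.coprime_dvd_left hpn hcop
  obtain ⟨-, ⟨j, hj⟩, hx⟩ := good_prime hn hcop h hp hpn hne h8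
  have hpos := order_pos hr hpr
  have hx2 : orderOf (p : ZMod r) ≤ 2 := by
    by_contra hc
    have h1 : p ^ 3 ≤ p ^ orderOf (p : ZMod r) := Nat.pow_le_pow_right hp.pos (by omega)
    have h2 : p ^ 4 ≤ p ^ orderOf (p : ZMod r) * p := by
      rw [pow_succ p 3]
      exact Nat.mul_le_mul_right _ h1
    omega
  have hdvd : orderOf (p : ZMod r) ∣ 2 := by
    have : orderOf (p : ZMod r) = 1 ∨ orderOf (p : ZMod r) = 2 := by omega
    rcases this with h1 | h1 <;> rw [h1]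
    exact one_dvd 2
  have hp2 : (p : ZMod r) ^ 2 = 1 := orderOf_dvd_iff_pow_eq_one.1 hdvd
  have h1 : (n : ZMod r) = (p : ZMod r) ^ j := by
    have := (ZMod.natCast_eq_natCast_iff _ _ _).2 hj
    simpa using this
  apply (ZMod.natCast_eq_natCast_iff _ _ _).1
  rw [Nat.cast_pow, h1, ← pow_mul, mul_comm, pow_mul, hp2, one_pow, Nat.cast_one]

/-- two types of good primes -/
lemma types {n r p : ℕ} (hn : 0 < n) (hr : 0 < r) (hcop : Nat.Coprime n r)
    (h : (X ^ r - 1 : (ZMod n)[X]) ∣ (X - 1) ^ n - (X ^ n - 1)) (hp : p.Prime)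
    (hpn : p ∣ n) (hne : n ≠ p) (h8 : 8 * n ≤ p * r ^ 2) (h2 : ¬ n ^ 2 ≡ 1 [MOD r]) :
    (∃ i, 1 ≤ i ∧ p ^ i < r ∧ ((p ^ i : ℕ) : ZMod r) = n) ∨
    (∃ i, 1 ≤ i ∧ p ^ i < r ∧ ((p ^ i : ℕ) : ZMod r) * n = 1) := by
  have hpr : Nat.Coprime p r := Nat.Coprime.coprime_dvd_left hpn hcop
  obtain ⟨-, ⟨j, hj⟩, hx⟩ := good_prime hn hcop h hp hpn hne h8
  have hpos := order_pos hr hpr
  set x := orderOf (p : ZMod r) with hxdef
  have h1 : (n : ZMod r) = (p : ZMod r) ^ j := by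
    have := (ZMod.natCast_eq_natCast_iff _ _ _).2 hj
    simpa using this
  have h3 : (n : ZMod r) = (p : ZMod r) ^ (j % x) := by
    rw [h1, hxdef, pow_mod_orderOf]
  have hlt : j % x < x := Nat.mod_lt _ hpos
  have hge : 1 ≤ j % x := by
    by_contra hc
    have h4 : j % x = 0 := by omega
    rw [h4, pow_zero] at h3
    apply h2
    apply (ZMod.natCast_eq_natCast_iff _ _ _).1
    rw [Nat.cast_pow, h3, one_pow, Nat.cast_one]
  have hr0 : 0 < r ^ 2 := pow_pos hr 2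
  have hxr : p ^ x < r * r := by
    have h4 : 8 * (p ^ x * p) ≤ p * r ^ 2 := (Nat.mul_le_mul_left 8 hx).trans h8
    have h5 : p * (8 * p ^ x) ≤ p * r ^ 2 := by
      calc p * (8 * p ^ x) = 8 * (p ^ x * p) := by ring
        _ ≤ _ := h4
    have h6 := Nat.le_of_mul_le_mul_left h5 hp.pos
    have h7 : 0 < p ^ x := pow_pos hp.pos x
    nlinarith
  have hsplit : p ^ (j % x) * p ^ (x - j % x) = p ^ x := by
    rw [← pow_add]; congr 1; omega
  rcases Nat.lt_or_ge (p ^ (j % x)) r with h4 | h4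
  · left
    refine ⟨j % x, hge, h4, ?_⟩
    rw [h3]; push_cast; rfl
  · right
    refine ⟨x - j % x, by omega, ?_, ?_⟩
    · by_contra hc
      push Not at hc
      have := Nat.mul_le_mul h4 hc
      rw [hsplit] at this
      omega
    · rw [h3]; push_cast
      rw [← pow_add]
      have : x - j % x + j % x = x := by omega
      rw [this, hxdef, pow_orderOf_eq_one]

lemma cast_inj_of_lt {a b r : ℕ} (ha : a < r) (hb : b < r) (h : (a : ZMod r) = b) : a = b := by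
  have h1 : a % r = b % r := (ZMod.natCast_eq_natCast_iff _ _ _).1 h
  rwa [Nat.mod_eq_of_lt ha, Nat.mod_eq_of_lt hb] at h1

lemma prime_eq_of_pow_eq {p q i j : ℕ} (hp : p.Prime) (hq : q.Prime) (hi : 1 ≤ i)
    (h : p ^ i = q ^ j) : p = q := by
  have h1 : p ∣ q ^ j := h ▸ dvd_pow_self p (by omega)
  exact (Nat.prime_dvd_prime_iff_eq hp hq).1 (hp.dvd_of_dvd_pow h1)

/-- three good primes -/
theorem three_primes {n r p q t : ℕ} (hn : 0 < n) (hr : 0 < r) (hcop : Nat.Coprime n r)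
    (h : (X ^ r - 1 : (ZMod n)[X]) ∣ (X - 1) ^ n - (X ^ n - 1))
    (hp : p.Prime) (hq : q.Prime) (ht : t.Prime) (hpq : p ≠ q) (hpt : p ≠ t) (hqt : q ≠ t)
    (hpn : p ∣ n) (hqn : q ∣ n) (htn : t ∣ n)
    (h8p : 8 * n ≤ p * r ^ 2) (h8q : 8 * n ≤ q * r ^ 2) (h8t : 8 * n ≤ t * r ^ 2) :
    n ^ 2 ≡ 1 [MOD r] := by
  by_contra h2
  have hne : ∀ u v : ℕ, u.Prime → v.Prime → u ≠ v → u ∣ n → n ≠ v := by
    intro u v hu hv huv hun hnv
    rw [hnv] at hun
    exact huv ((Nat.prime_dvd_prime_iff_eq hu hv).1 hun)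
  have Tp := types hn hr hcop h hp hpn (hne q p hq hp hpq.symm hqn) h8p h2
  have Tq := types hn hr hcop h hq hqn (hne p q hp hq hpq hpn) h8q h2
  have Tt := types hn hr hcop h ht htn (hne p t hp ht hpt hpn) h8t h2
  have hunit : IsUnit (n : ZMod r) := (ZMod.isUnit_iff_coprime n r).2 hcop
  have e1 : ∀ u v : ℕ, u.Prime → v.Prime →
      (∃ i, 1 ≤ i ∧ u ^ i < r ∧ ((u ^ i : ℕ) : ZMod r) = n) →
      (∃ i, 1 ≤ i ∧ v ^ i < r ∧ ((v ^ i : ℕ) : ZMod r) = n) → u = v := by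
    rintro u v hu hv ⟨i, hi, hir, hi'⟩ ⟨j, hj, hjr, hj'⟩
    exact prime_eq_of_pow_eq hu hv hi (cast_inj_of_lt hir hjr (hi'.trans hj'.symm))
  have e2 : ∀ u v : ℕ, u.Prime → v.Prime →
      (∃ i, 1 ≤ i ∧ u ^ i < r ∧ ((u ^ i : ℕ) : ZMod r) * n = 1) →
      (∃ i, 1 ≤ i ∧ v ^ i < r ∧ ((v ^ i : ℕ) : ZMod r) * n = 1) → u = v := by
    rintro u v hu hv ⟨i, hi, hir, hi'⟩ ⟨j, hj, hjr, hj'⟩
    exact prime_eq_of_pow_eq hu hv hi
      (cast_inj_of_lt hir hjr (hunit.mul_right_cancel (hi'.trans hj'.symm)))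
  rcases Tp with Tp | Tp <;> rcases Tq with Tq | Tq <;> rcases Tt with Tt | Tt
  · exact hpq (e1 p q hp hq Tp Tq)
  · exact hpq (e1 p q hp hq Tp Tq)
  · exact hpt (e1 p t hp ht Tp Tt)
  · exact hqt (e2 q t hq ht Tq Tt)
  · exact hqt (e1 q t hq ht Tq Tt)
  · exact hpt (e2 p t hp ht Tp Tt)
  · exact hpq (e2 p q hp hq Tp Tq)
  · exact hpq (e2 p q hp hq Tp Tq)

/-- the range `8 n ≤ p_min(n) r^2` -/
theorem range_thm {n r : ℕ} (hn : 0 < n) (hr : 0 < r) (hcop : Nat.Coprime n r)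
    (h : (X ^ r - 1 : (ZMod n)[X]) ∣ (X - 1) ^ n - (X ^ n - 1))
    (h8 : 8 * n ≤ n.minFac * r ^ 2) : n.Prime ∨ n ^ 2 ≡ 1 [MOD r] := by
  by_cases hprime : n.Prime
  · exact Or.inl hprime
  right
  by_cases h1 : n = 1
  · rw [h1]; exact Nat.ModEq.refl _
  have hgood : ∀ q : ℕ, q.Prime → q ∣ n → 8 * n ≤ q * r ^ 2 := fun q hq hqn =>
    h8.trans (Nat.mul_le_mul_right _ (Nat.minFac_le_of_dvd hq.two_le hqn))
  have hne : ∀ q : ℕ, q.Prime → n ≠ q := by
    rintro q hq rfl; exact hprime hq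
  set p := n.minFac with hpdef
  have hp : p.Prime := Nat.minFac_prime h1
  obtain ⟨m, hm⟩ : p ∣ n := Nat.minFac_dvd n
  have hm1 : m ≠ 1 := by
    intro h2
    rw [h2, mul_one] at hm
    exact hne p hp hm
  set q := m.minFac with hqdef
  have hq : q.Prime := Nat.minFac_prime hm1
  obtain ⟨l, hl⟩ : q ∣ m := Nat.minFac_dvd m
  have hqn : q ∣ n := ⟨p * l, by rw [hm, hl]; ring⟩
  have hpn : p ∣ n := ⟨m, hm⟩
  have hpq : p ≠ q := by
    intro h2
    have h3 := (good_prime hn hcop h hp hpn (hne p hp) (hgood p hp hpn)).1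
    apply h3
    exact ⟨l, by rw [hm, hl, ← h2]; ring⟩
  by_cases hl1 : l = 1
  · -- two primes
    exfalso
    have h3 := (good_prime hn hcop h hq hqn (hne q hq) (hgood q hq hqn)).2.2
    have hqr : Nat.Coprime q r := Nat.Coprime.coprime_dvd_left hqn hcop
    have hpos := order_pos hr hqr
    have hle : p ≤ q := Nat.minFac_le_of_dvd hq.two_le hqn
    have h4 : q ≤ q ^ orderOf (q : ZMod r) := Nat.le_self_pow (by omega) q
    have h5 : n = p * q := by rw [hm, hl, hl1, mul_one]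
    have h6 : q ^ orderOf (q : ZMod r) * q ≤ p * q := by rw [← h5]; exact h3
    have h7 := Nat.le_of_mul_le_mul_right h6 hq.pos
    omega
  · set t := l.minFac with htdef
    have ht : t.Prime := Nat.minFac_prime hl1
    obtain ⟨w, hw⟩ : t ∣ l := Nat.minFac_dvd l
    have htn : t ∣ n := ⟨p * q * w, by rw [hm, hl, hw]; ring⟩
    have hpt : p ≠ t := by
      intro h2
      have h3 := (good_prime hn hcop h hp hpn (hne p hp) (hgood p hp hpn)).1
      apply h3
      exact ⟨q * w, by rw [hm, hl, hw, ← h2]; ring⟩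
    have hqt : q ≠ t := by
      intro h2
      have h3 := (good_prime hn hcop h hq hqn (hne q hq) (hgood q hq hqn)).1
      apply h3
      exact ⟨p * w, by rw [hm, hl, hw, ← h2]; ring⟩
    exact three_primes hn hr hcop h hp hq ht hpq hpt hqt hpn hqn htn (hgood p hp hpn)
      (hgood q hq hqn) (hgood t ht htn)

/-- helper96's range: a prime above `n^(1/4)`, and `r` a little larger than `√(2n/p)` -/
theorem large_prime' {n r p : ℕ} (hn : 0 < n) (hcop : Nat.Coprime n r)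
    (h : (X ^ r - 1 : (ZMod n)[X]) ∣ (X - 1) ^ n - (X ^ n - 1)) (hp : p.Prime)
    (hpn : p ∣ n) (h4 : n < p ^ 4) (h3 : 3 * (n / (p * r) + 1) < p)
    (h2 : 2 * (n / (p * r)) + 4 ≤ r) :
    n.Prime ∨ n ^ 2 ≡ 1 [MOD r] := by
  by_cases hne : n = p
  · left; rw [hne]; exact hp
  right
  obtain ⟨m, hm⟩ := hpn
  have hdiv : n / (p * r) = m / r := by
    rw [hm, Nat.mul_div_mul_left _ _ hp.pos]
  rw [hdiv] at h3 h2
  have hm0 : 0 < m := by
    rcases Nat.eq_zero_or_pos m with h0 | h0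
    · rw [h0, mul_zero] at hm; omega
    · exact h0
  have hpm : ¬ p ∣ m := by
    intro h5
    have h6 : p ^ 2 ∣ n := by
      rw [hm, pow_two]
      exact Nat.mul_dvd_mul_left p h5
    have h7 := square_dvd hn hcop h hp h6
    have h8 := Nat.le_of_dvd hm0 h5
    have h9 : r * (m / r) + m % r = m := Nat.div_add_mod m r
    have h10 : m % r < r := Nat.mod_lt _ (by omega)
    nlinarith
  have hm2 : 2 ≤ m := by
    by_contra hc
    have : m = 1 := by omega
    rw [this, mul_one] at hm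
    exact hne hm
  have hm3 : m < p ^ 3 := by
    have h5 : p * m < p * p ^ 3 := by
      rw [← hm]
      calc n < p ^ 4 := h4
        _ = p * p ^ 3 := by ring
    exact Nat.lt_of_mul_lt_mul_left h5
  exact Pool.Agent.Helper96.AG.main_composite hp (a := 1) (by rw [pow_one]; exact hm) le_rfl hpm
    hm2 hcop h3 h2 hm3 h

end Pool.Agent.Helper49.Agr
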