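import Pool.Agent.Helper49.Agr.Defs

/-!
AGR LEMW.  If `∏_{v ∈ V} (X^v - 1) = (X-1)^κ (X^σ - 1)` over `ZMod p`, `σ ≥ 1`, `σ = p^h s'`, `p ∤ s'`,
then every `v ∈ V` is `p^g` or `p^g s'`, some `v` is `p^g s'`, `∑ v = κ + σ`, and if `s' ≠ 1` the `v`
not divisible by `s'` (these are the `v` which are powers of `p`) have sum `κ`.

PROOF.  The right side is not `0` (monic of degree `κ + σ`), so all `v ≥ 1` (`X^0 - 1 = 0`), all factors
are monic of degree `v`; comparing degrees: `∑ v = κ + σ`.  Write `v = p^{g(v)} d(v)`, `p ∤ d(v)`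
(`Nat.exists_eq_pow_mul_and_not_dvd`, or `ordProj`/`ordCompl`), so `X^v - 1 = (X^{d(v)} - 1)^(p^{g(v)})`
(`sub_pow_expChar_pow`).  Let `K = AlgebraicClosure (ZMod p)`.  For `D ≥ 1`, `p ∤ D`, there is a
primitive `D`-th root of unity `ζ` in `K` (`HasEnoughRootsOfUnity`/`IsAlgClosed`, e.g. a root of
`cyclotomic D K`, `isRoot_cyclotomic_iff`).  For such `ζ` the multiplicity of the root `ζ` of
`X^v - 1` (over `K`) is `p^{g(v)}` if `D ∣ d(v)` (equivalently `D ∣ v`) and `0` otherwise
(`X^{d} - 1` is separable over `K` when `p ∤ d`: `separable_X_pow_sub_C`, so its roots are simple).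
(a) `d(v) ∣ s'` for `v ∈ V`: take `ζ` primitive of order `d(v)`; it is a root of the left side, so
    `ζ = 1` or `ζ^σ = 1`, in both cases `ζ^σ = 1`, `d(v) ∣ σ = p^h s'`, so `d(v) ∣ s'` (coprime to `p`).
(b) `s' = 1`: all `d(v) = 1`; `V ≠ 0` since `κ + σ ≥ 1`.  Done (the last claim is vacuous).
(c) `s' > 1`: multiplicities at `ζ = 1`: `∑_v p^{g(v)} = κ + p^h`.  At `ζ` primitive of order `s'`
    (`≠ 1`): `∑_{v : s' ∣ v} p^{g(v)} = p^h` (> 0, so there is such a `v`; `s' ∣ v` iff `s' ∣ d(v)` iff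
    `d(v) = s'`, by (a)).  Degrees: `∑ p^{g(v)} d(v) = κ + p^h s'`.  Subtract:
    `∑_v p^{g(v)} (d(v) - 1) = p^h (s' - 1) = ∑_{v : s' ∣ v} p^{g(v)} (d(v) - 1)`, so `d(v) = 1` for all
    `v` with `s' ∤ v`: every `v` is `p^g` or `p^g s'` and `∑_{v = p^g} v = (κ + p^h) - p^h = κ`
    (`v = p^g` iff `d(v) = 1` iff not `s' ∣ v`).
Working with `Multiset` of natural numbers is fine; `rootMultiplicity_mul`, `Polynomial.roots` and
`Multiset.count` (`Polynomial.count_roots`, `roots_multiset_prod`) are convenient.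
-/

set_option autoImplicit false

namespace Pool.Agent.Helper49.Agr

open Polynomial

/-- the multiplicity of `ζ` as a root of `X^v - 1` -/
lemma count_roots_X_pow (p : ℕ) [Fact p.Prime] {K : Type} [Field K] [CharP K p] [DecidableEq K]
    (ζ : K) {v : ℕ} (hv : v ≠ 0) :
    ((X ^ v - 1 : K[X]).roots).count ζ = if ζ ^ v = 1 then ordProj[p] v else 0 := by
  have hp : p.Prime := Fact.out
  have hv' : ordProj[p] v * ordCompl[p] v = v := Nat.ordProj_mul_ordCompl_eq_self v p
  have hnd : ¬ p ∣ ordCompl[p] v := Nat.not_dvd_ordCompl hp hv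
  have hpow : (X ^ v - 1 : K[X]) = (X ^ (ordCompl[p] v) - 1) ^ (ordProj[p] v) := by
    have h1 := sub_pow_expChar_pow (R := K[X]) (p := p) (n := v.factorization p)
      (X ^ (ordCompl[p] v)) 1
    rw [one_pow, ← pow_mul, mul_comm (ordCompl[p] v), hv'] at h1
    exact h1.symm
  have hdvd : ζ ^ v = 1 ↔ ζ ^ (ordCompl[p] v) = 1 := by
    constructor
    · intro h
      have h1 := sub_pow_expChar_pow (R := K) (p := p) (n := v.factorization p)
        (ζ ^ (ordCompl[p] v)) 1
      rw [one_pow, ← pow_mul, mul_comm (ordCompl[p] v), hv', h, sub_self] at h1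
      exact sub_eq_zero.1 ((pow_eq_zero_iff (pow_pos hp.pos _).ne').1 h1)
    · intro h
      rw [← hv', mul_comm, pow_mul, h, one_pow]
  rw [hpow, roots_pow, Multiset.count_nsmul]
  have hsep : (X ^ (ordCompl[p] v) - 1 : K[X]).Separable := by
    have := separable_X_pow_sub_C' p (ordCompl[p] v) (1 : K) hnd one_ne_zero
    rwa [C_1] at this
  have hne : (X ^ (ordCompl[p] v) - 1 : K[X]) ≠ 0 := hsep.ne_zero
  by_cases h : ζ ^ v = 1
  · rw [if_pos h]
    have hmem : ζ ∈ (X ^ (ordCompl[p] v) - 1 : K[X]).roots := by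
      rw [mem_roots hne, IsRoot.def]
      simp [hdvd.1 h]
    rw [Multiset.count_eq_one_of_mem (nodup_roots hsep) hmem, mul_one]
  · rw [if_neg h]
    have hmem : ζ ∉ (X ^ (ordCompl[p] v) - 1 : K[X]).roots := by
      rw [mem_roots hne, IsRoot.def]
      intro h1
      refine h (hdvd.2 ?_)
      have h2 : ζ ^ (ordCompl[p] v) - 1 = 0 := by simpa using h1
      exact sub_eq_zero.1 h2
    rw [Multiset.count_eq_zero_of_notMem hmem, mul_zero]

lemma sum_eq_of_le {P : ℕ → ℕ} (B : Multiset ℕ) (h : ∀ v ∈ B, P v ≤ v) :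
    (B.map P).sum ≤ B.sum ∧ ((B.map P).sum = B.sum → ∀ v ∈ B, P v = v) := by
  induction B using Multiset.induction with
  | empty => simp
  | cons a B ih =>
    have ih' := ih fun v hv => h v (Multiset.mem_cons_of_mem hv)
    have ha := h a (Multiset.mem_cons_self a B)
    rw [Multiset.map_cons, Multiset.sum_cons, Multiset.sum_cons]
    refine ⟨by omega, fun he v hv => ?_⟩
    rcases Multiset.mem_cons.1 hv with rfl | hv
    · omega
    · exact ih'.2 (by omega) v hv

theorem lemW (p : ℕ) [Fact p.Prime] (V : Multiset ℕ) (κ σ : ℕ) (hσ : 1 ≤ σ)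
    (hV : (V.map (fun v => (X ^ v - 1 : (ZMod p)[X]))).prod = (X - 1) ^ κ * (X ^ σ - 1)) :
    V.sum = κ + σ ∧ ∃ h s', σ = p ^ h * s' ∧ ¬ p ∣ s' ∧
      (∀ v ∈ V, ∃ g, v = p ^ g ∨ v = p ^ g * s') ∧ (∃ v ∈ V, ∃ g, v = p ^ g * s') ∧
      (s' ≠ 1 → (V.filter (fun v => ¬ s' ∣ v)).sum = κ) := by
  classical
  have hp : p.Prime := Fact.out
  have hσ0 : σ ≠ 0 := by omega
  -- monic factors
  have hm1 : ∀ v : ℕ, v ≠ 0 → (X ^ v - 1 : (ZMod p)[X]).Monic := by
    intro v hv
    have := monic_X_pow_sub_C (1 : ZMod p) hv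
    rwa [C_1] at this
  have hdeg1 : ∀ v : ℕ, (X ^ v - 1 : (ZMod p)[X]).natDegree = v := by
    intro v
    have := natDegree_X_pow_sub_C (n := v) (r := (1 : ZMod p))
    rwa [C_1] at this
  have hX1 : (X - 1 : (ZMod p)[X]).Monic := by
    have := hm1 1 one_ne_zero
    rwa [pow_one] at this
  have hdX1 : (X - 1 : (ZMod p)[X]).natDegree = 1 := by
    have := hdeg1 1
    rwa [pow_one] at this
  have hRm : ((X - 1) ^ κ * (X ^ σ - 1) : (ZMod p)[X]).Monic := (hX1.pow κ).mul (hm1 σ hσ0)
  have h0V : (0 : ℕ) ∉ V := by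
    intro h0
    have : (V.map (fun v => (X ^ v - 1 : (ZMod p)[X]))).prod = 0 := by
      rw [Multiset.prod_eq_zero_iff, Multiset.mem_map]
      exact ⟨0, h0, by simp⟩
    rw [hV] at this
    exact hRm.ne_zero this
  have hne0 : ∀ v ∈ V, v ≠ 0 := fun v hv h => h0V (h ▸ hv)
  have hsum : V.sum = κ + σ := by
    have h1 := natDegree_multiset_prod_of_monic (V.map (fun v => (X ^ v - 1 : (ZMod p)[X]))) (by
      intro f hf
      obtain ⟨v, hv, rfl⟩ := Multiset.mem_map.1 hf
      exact hm1 v (hne0 v hv))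
    rw [hV, (hX1.pow κ).natDegree_mul (hm1 σ hσ0), hX1.natDegree_pow, hdX1, hdeg1, mul_one,
      Multiset.map_map] at h1
    have h2 : V.map (natDegree ∘ fun v => (X ^ v - 1 : (ZMod p)[X])) = V := by
      conv_rhs => rw [← Multiset.map_id V]
      exact Multiset.map_congr rfl fun v _ => hdeg1 v
    rw [h2] at h1
    exact h1.symm
  -- multiplicities
  let K := AlgebraicClosure (ZMod p)
  have : CharP K p := charP_of_injective_algebraMap (algebraMap (ZMod p) K).injective p
  have E : ∀ ζ : K, (V.map (fun v => if ζ ^ v = 1 then ordProj[p] v else 0)).sum =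
      (if ζ = 1 then κ else 0) + (if ζ ^ σ = 1 then ordProj[p] σ else 0) := by
    intro ζ
    have h1 := congrArg (Polynomial.map (algebraMap (ZMod p) K)) hV
    rw [Polynomial.map_multiset_prod, Multiset.map_map, Polynomial.map_mul, Polynomial.map_pow,
      Polynomial.map_sub, Polynomial.map_sub, Polynomial.map_pow, Polynomial.map_X,
      Polynomial.map_one] at h1
    have h2 : V.map (Polynomial.map (algebraMap (ZMod p) K) ∘ fun v => (X ^ v - 1 : (ZMod p)[X])) =
        V.map fun v => (X ^ v - 1 : K[X]) := by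
      refine Multiset.map_congr rfl fun v _ => ?_
      simp
    rw [h2] at h1
    have hKm : ∀ v : ℕ, v ≠ 0 → (X ^ v - 1 : K[X]) ≠ 0 := by
      intro v hv
      have := (monic_X_pow_sub_C (1 : K) hv).ne_zero
      rwa [C_1] at this
    have h3 : (0 : K[X]) ∉ V.map fun v => (X ^ v - 1 : K[X]) := by
      intro h
      obtain ⟨v, hv, h⟩ := Multiset.mem_map.1 h
      exact hKm v (hne0 v hv) h
    have h4 := congrArg (fun f : K[X] => f.roots.count ζ) h1
    beta_reduce at h4
    have hX1' : (X - 1 : K[X]) ≠ 0 := by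
      have := hKm 1 one_ne_zero
      rwa [pow_one] at this
    rw [roots_multiset_prod _ h3, Multiset.count_bind, Multiset.map_map,
      roots_mul (mul_ne_zero (pow_ne_zero _ hX1') (hKm σ hσ0)), Multiset.count_add, roots_pow,
      Multiset.count_nsmul, count_roots_X_pow p ζ hσ0] at h4
    have h5 : V.map ((fun b : K[X] => Multiset.count ζ b.roots) ∘ fun v => (X ^ v - 1 : K[X])) =
        V.map (fun v => if ζ ^ v = 1 then ordProj[p] v else 0) :=
      Multiset.map_congr rfl fun v hv => count_roots_X_pow p ζ (hne0 v hv)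
    rw [h5] at h4
    rw [h4]
    congr 1
    have h6 : (X - 1 : K[X]).roots = {1} := by
      have := roots_X_sub_C (1 : K)
      rwa [C_1] at this
    rw [h6, Multiset.count_singleton]
    split_ifs <;> simp
  have hσe : ordProj[p] σ * ordCompl[p] σ = σ := Nat.ordProj_mul_ordCompl_eq_self σ p
  have hs' : ¬ p ∣ ordCompl[p] σ := Nat.not_dvd_ordCompl hp hσ0
  have hprim : ∀ D : ℕ, ¬ p ∣ D → ∃ ζ : K, IsPrimitiveRoot ζ D := by
    intro D hD
    have : NeZero (D : ZMod p) := ⟨by
      intro h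
      exact hD ((ZMod.natCast_eq_zero_iff D p).1 h)⟩
    exact HasEnoughRootsOfUnity.exists_primitiveRoot K D
  have ha : ∀ v ∈ V, ordCompl[p] v ∣ ordCompl[p] σ := by
    intro v hv
    have hv0 := hne0 v hv
    obtain ⟨ζ, hζ⟩ := hprim (ordCompl[p] v) (Nat.not_dvd_ordCompl hp hv0)
    have h1 : ζ ^ v = 1 := by
      rw [hζ.pow_eq_one_iff_dvd]
      exact Nat.ordCompl_dvd v p
    have h2 : ζ ^ σ = 1 := by
      by_contra hcon
      have hζ1 : ζ ≠ 1 := by
        rintro rfl
        exact hcon (one_pow _)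
      have h3 := E ζ
      rw [if_neg hζ1, if_neg hcon, add_zero, Multiset.sum_eq_zero_iff] at h3
      have h4 := h3 (ordProj[p] v) (Multiset.mem_map.2 ⟨v, hv, by rw [if_pos h1]⟩)
      exact absurd h4 (pow_pos hp.pos _).ne'
    have h3 : ordCompl[p] v ∣ σ := (hζ.pow_eq_one_iff_dvd _).1 h2
    rw [← hσe] at h3
    refine Nat.Coprime.dvd_of_dvd_mul_left ?_ h3
    refine Nat.Coprime.pow_right _ ?_
    exact ((Nat.Prime.coprime_iff_not_dvd hp).2 (Nat.not_dvd_ordCompl hp hv0)).symm
  have hve : ∀ v : ℕ, ordProj[p] v * ordCompl[p] v = v :=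
    fun v => Nat.ordProj_mul_ordCompl_eq_self v p
  refine ⟨hsum, σ.factorization p, ordCompl[p] σ, hσe.symm, hs', ?_⟩
  set s' := ordCompl[p] σ with hs'def
  by_cases hs1 : s' = 1
  · have hall : ∀ v ∈ V, v = p ^ (v.factorization p) := by
      intro v hv
      have h1 := ha v hv
      rw [hs1, Nat.dvd_one] at h1
      conv_lhs => rw [← hve v, h1, mul_one]
    refine ⟨fun v hv => ⟨_, Or.inl (hall v hv)⟩, ?_, fun h => absurd hs1 h⟩
    obtain ⟨v, hv⟩ : ∃ v, v ∈ V := by
      refine Multiset.exists_mem_of_ne_zero fun h => ?_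
      rw [h, Multiset.sum_zero] at hsum
      omega
    exact ⟨v, hv, v.factorization p, by rw [hs1, mul_one]; exact hall v hv⟩
  · obtain ⟨ζ, hζ⟩ := hprim s' hs'
    have hζ1 : ζ ≠ 1 := by
      intro h
      rw [h] at hζ
      exact hs1 (hζ.unique IsPrimitiveRoot.one)
    have hζσ : ζ ^ σ = 1 := (hζ.pow_eq_one_iff_dvd _).2 (Nat.ordCompl_dvd σ p)
    have E1 := E 1
    simp only [one_pow, if_true] at E1
    have E2 := E ζ
    rw [if_neg hζ1, if_pos hζσ, zero_add] at E2
    -- split
    have hsplit := Multiset.filter_add_not (fun v => s' ∣ v) V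
    have hA : (V.map (fun v => if ζ ^ v = 1 then ordProj[p] v else 0)).sum =
        ((V.filter (fun v => s' ∣ v)).map (fun v => ordProj[p] v)).sum := by
      conv_lhs => rw [← hsplit]
      rw [Multiset.map_add, Multiset.sum_add]
      have h1 : ((V.filter (fun v => s' ∣ v)).map (fun v => if ζ ^ v = 1 then ordProj[p] v else 0)) =
          (V.filter (fun v => s' ∣ v)).map (fun v => ordProj[p] v) := by
        refine Multiset.map_congr rfl fun v hv => ?_
        rw [if_pos]
        exact (hζ.pow_eq_one_iff_dvd _).2 (Multiset.mem_filter.1 hv).2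
      have h2 : ((V.filter (fun v => ¬ s' ∣ v)).map
          (fun v => if ζ ^ v = 1 then ordProj[p] v else 0)).sum = 0 := by
        rw [Multiset.sum_eq_zero_iff]
        intro x hx
        obtain ⟨v, hv, rfl⟩ := Multiset.mem_map.1 hx
        rw [if_neg]
        intro h
        exact (Multiset.mem_filter.1 hv).2 ((hζ.pow_eq_one_iff_dvd _).1 h)
      rw [h1, h2, add_zero]
    have hdA : ∀ v ∈ V, s' ∣ v → v = ordProj[p] v * s' := by
      intro v hv hd
      have h1 : s' ∣ ordCompl[p] v := by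
        rw [← hve v] at hd
        refine Nat.Coprime.dvd_of_dvd_mul_left ?_ hd
        exact Nat.Coprime.pow_right _ ((Nat.Prime.coprime_iff_not_dvd hp).2 hs').symm
      have h2 : ordCompl[p] v = s' := Nat.dvd_antisymm (ha v hv) h1
      conv_lhs => rw [← hve v, h2]
    have hAs : (V.filter (fun v => s' ∣ v)).sum =
        ((V.filter (fun v => s' ∣ v)).map (fun v => ordProj[p] v)).sum * s' := by
      rw [← Multiset.sum_map_mul_right]
      conv_lhs => rw [← Multiset.map_id (V.filter (fun v => s' ∣ v))]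
      refine congrArg Multiset.sum (Multiset.map_congr rfl fun v hv => ?_)
      exact hdA v (Multiset.mem_filter.1 hv).1 (Multiset.mem_filter.1 hv).2
    have hVs : (V.filter (fun v => s' ∣ v)).sum + (V.filter (fun v => ¬ s' ∣ v)).sum = V.sum := by
      rw [← Multiset.sum_add, hsplit]
    have hVP : ((V.filter (fun v => s' ∣ v)).map (fun v => ordProj[p] v)).sum +
        ((V.filter (fun v => ¬ s' ∣ v)).map (fun v => ordProj[p] v)).sum =
        (V.map (fun v => ordProj[p] v)).sum := by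
      rw [← Multiset.sum_add, ← Multiset.map_add, hsplit]
    have hPA : ((V.filter (fun v => s' ∣ v)).map (fun v => ordProj[p] v)).sum = ordProj[p] σ := by
      rw [← hA]; exact E2
    have hB : (V.filter (fun v => ¬ s' ∣ v)).sum = κ := by
      rw [hPA, hσe] at hAs
      omega
    have hBP : ((V.filter (fun v => ¬ s' ∣ v)).map (fun v => ordProj[p] v)).sum = κ := by
      omega
    have hBall := (sum_eq_of_le (P := fun v => ordProj[p] v) (V.filter (fun v => ¬ s' ∣ v)) (by
      intro v hv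
      have hv0 := hne0 v (Multiset.mem_filter.1 hv).1
      exact Nat.le_of_dvd (Nat.pos_of_ne_zero hv0) (Nat.ordProj_dvd v p))).2 (by rw [hBP, hB])
    refine ⟨?_, ?_, fun _ => hB⟩
    · intro v hv
      by_cases hd : s' ∣ v
      · exact ⟨v.factorization p, Or.inr (hdA v hv hd)⟩
      · exact ⟨v.factorization p, Or.inl (hBall v (Multiset.mem_filter.2 ⟨hv, hd⟩)).symm⟩
    · have hne : V.filter (fun v => s' ∣ v) ≠ 0 := by
        intro h
        rw [h] at hPA
        simp only [Multiset.map_zero, Multiset.sum_zero] at hPA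
        exact absurd hPA.symm (pow_pos hp.pos _).ne'
      obtain ⟨v, hv⟩ := Multiset.exists_mem_of_ne_zero hne
      have hv' := Multiset.mem_filter.1 hv
      exact ⟨v, hv'.1, v.factorization p, hdA v hv'.1 hv'.2⟩

end Pool.Agent.Helper49.Agr
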