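import Pool.Agent.Helper49.Agr.LemT
import Pool.Agent.Helper49.Agr.LemW

/-!
AGR CASE1.  `P = p^e`, `P N = m + κ`, `1 ≤ κ < P`, `2 N < r`, `κ < s < r - κ` where `s = m % r`.

PROOF.  `key` (`Defs.lean`): `(X^P - 1)^N ≡ (X-1)^κ (X^m - 1)` mod `X^r - 1`.  Let `u P ≡ 1` mod `r`
(`Nat.Coprime`), and put `ω a = (u*a) % r`, `ω' a = (u*(a+m)) % r`.  Apply `fold r u 0`:
`∑_w c_N(w) X^((u*(P w)) % r) = ∑_w c_N(w) X^w = (X-1)^N` (as `w ≤ N < r`) `=
∑_{a ≤ κ} c_κ(a) (X^(ω' a) - X^(ω a))`.                                                     (1)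
The numbers `a`, `a + m` (`0 ≤ a ≤ κ`) are pairwise incongruent mod `r` (`κ < s`, `s + κ < r`), hence so
are the `ω a`, `ω' a` (`u` is invertible mod `r`).  So for `c_κ(a) ≠ 0` the coefficient of (1) at `ω a` is
`- c_κ(a) ≠ 0`, the one at `ω' a` is `c_κ(a) ≠ 0`, hence `ω a ≤ N`, `ω' a ≤ N`                 (2)
(degree of `(X-1)^N`).  Since `2 N < r`: if `c_κ(a), c_κ(a'), c_κ(a+a') ≠ 0` then
`ω(a+a') = ω(a) + ω(a')` (both sides `< r` and congruent), and `ω'(a) = ω'(0) + ω(a)` if `c_κ(a) ≠ 0`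
(`c_κ(0) ≠ 0`).  So (1) becomes `(X-1)^N = (X^(ω' 0) - 1) * ∑_a c_κ(a) X^(ω a)`, and by `lemT` (for
`M = κ`, `B = (ZMod p)[X]`, `x a = X^(ω a)`, `ω 0 = 0`)
`(X-1)^N = (X^(ω' 0) - 1) * ∏_{l ∈ L} (X^(ω(p^l)) - 1)`, `∑_{l ∈ L} p^l = κ ≥ 1`, so `L ≠ 0`.    (3)
`N ≥ 1` (as `m + κ ≥ 1`), so the left side is `(X-1)^(N-1) (X^1 - 1)`: apply `lemW` with
`V = ω'(0) ::ₘ L.map (ω (p^·))`, `κ := N-1`, `σ := 1` (then `h = 0`, `s' = 1`): `ω'(0) = p^f`,
`ω(p^l) = p^{f_l}`, and `∑ V = N`.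
* `ω'(0) ≡ u m`, so `m ≡ P p^f = p^(e+f)` mod `r`: first half of `Concl`.
* take `l ∈ L`: `u p^l ≡ p^{f_l}`, so `p^l ≡ P p^{f_l} = p^(e+f_l)`; `a := e + f_l`, `b := l`;
  `p^l ≤ κ < P ≤ p^a` so `b < a`.  `N ≥ p^f + p^{f_l} ≥ 1 + p^{f_l}` (sum of `V`, two different members of
  the multiset `V`), so `m = P N - κ > P (N-1) ≥ P p^{f_l} = p^a`, hence `p^a + 1 ≤ m + p^b`.
-/

set_option autoImplicit false

namespace Pool.Agent.Helper49.Agr

open Polynomial

theorem case1 (p : ℕ) [Fact p.Prime] (r m e N κ : ℕ) (hpr : Nat.Coprime p r)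
    (hN : p ^ e * N = m + κ) (hκ1 : 1 ≤ κ) (hκP : κ < p ^ e) (h2N : 2 * N < r)
    (hs1 : κ < m % r) (hs2 : m % r + κ < r) (h : Loc p r m) : Concl p r m := by
  classical
  have hp : p.Prime := Fact.out
  have hN1 : 1 ≤ N := by
    rcases Nat.eq_zero_or_pos N with h0 | h0
    · rw [h0, mul_zero] at hN; omega
    · exact h0
  have hr : 1 < r := by omega
  have hPr : Nat.Coprime (p ^ e) r := Nat.Coprime.pow_left e hpr
  obtain ⟨u, _, hu⟩ := Nat.exists_mul_mod_eq_one_of_coprime hPr hr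
  have hu1 : u * p ^ e ≡ 1 [MOD r] := by
    rw [Nat.ModEq, mul_comm, hu, Nat.mod_eq_of_lt hr]
  have hur : Nat.Coprime r u := by
    have h1 : Nat.Coprime r (u * p ^ e) := by
      rw [Nat.coprime_comm, Nat.coprime_iff_gcd_eq_one, hu1.gcd_eq]
      exact Nat.gcd_one_left r
    exact Nat.Coprime.coprime_mul_right_right h1
  have hcancel : ∀ x y : ℕ, (u * x) % r = (u * y) % r → x % r = y % r := by
    intro x y hxy
    exact Nat.ModEq.cancel_left_of_coprime hur hxy
  -- the folded identity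
  have hfold := fold_congr (u := u) (v := 0) (key h hN)
  have hL : fold r u 0 ((X ^ p ^ e - 1 : (ZMod p)[X]) ^ N) = (X - 1) ^ N := by
    have h1 : ((X ^ p ^ e - 1 : (ZMod p)[X]) ^ N) =
        ∑ i ∈ Finset.range (N + 1), C (c p N i) * X ^ (p ^ e * i) := by
      have h2 := congrArg (expand (ZMod p) (p ^ e)) (pow_eq_sum p N)
      rw [map_pow, map_sub, expand_X, map_one, map_sum] at h2
      rw [h2]
      refine Finset.sum_congr rfl fun i _ => ?_
      rw [map_mul, expand_C, map_pow, expand_X, pow_mul]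
    rw [h1, map_sum, pow_eq_sum p N]
    refine Finset.sum_congr rfl fun i hi => ?_
    rw [fold_C_mul_X_pow]
    congr 2
    rw [add_zero, ← mul_assoc]
    have h3 : u * p ^ e * i ≡ 1 * i [MOD r] := hu1.mul_right i
    rw [one_mul] at h3
    have h4 : i < r := by
      have := Finset.mem_range.1 hi
      omega
    rw [h3, Nat.mod_eq_of_lt h4]
  have hR : fold r u 0 ((X - 1) ^ κ * (X ^ m - 1) : (ZMod p)[X]) =
      ∑ a ∈ Finset.range (κ + 1), C (c p κ a) * (X ^ ((u * (a + m)) % r) - X ^ ((u * a) % r)) := by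
    have h1 : ((X - 1) ^ κ * (X ^ m - 1) : (ZMod p)[X]) =
        ∑ a ∈ Finset.range (κ + 1), (C (c p κ a) * X ^ (a + m) - C (c p κ a) * X ^ a) := by
      rw [pow_eq_sum p κ, Finset.sum_mul]
      refine Finset.sum_congr rfl fun a _ => ?_
      rw [pow_add]; ring
    rw [h1, map_sum]
    refine Finset.sum_congr rfl fun a _ => ?_
    rw [map_sub, fold_C_mul_X_pow, fold_C_mul_X_pow, add_zero, add_zero]
    ring
  rw [hL, hR] at hfold
  have hw1 : ∀ a b : ℕ, a ≤ κ → b ≤ κ → ((u * a) % r = (u * b) % r ↔ a = b) := by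
    intro a b ha hb
    refine ⟨fun hab => ?_, fun hab => by rw [hab]⟩
    have h1 := hcancel a b hab
    rwa [Nat.mod_eq_of_lt (by omega), Nat.mod_eq_of_lt (by omega)] at h1
  have hmod : ∀ a : ℕ, a ≤ κ → (a + m) % r = a + m % r := by
    intro a ha
    rw [Nat.add_mod, Nat.mod_eq_of_lt (by omega : a < r), Nat.mod_eq_of_lt (by omega)]
  have hw2 : ∀ a b : ℕ, a ≤ κ → b ≤ κ → ((u * (a + m)) % r = (u * (b + m)) % r ↔ a = b) := by
    intro a b ha hb
    refine ⟨fun hab => ?_, fun hab => by rw [hab]⟩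
    have h1 := hcancel _ _ hab
    rw [hmod a ha, hmod b hb] at h1
    omega
  have hw3 : ∀ a b : ℕ, a ≤ κ → b ≤ κ → (u * (a + m)) % r ≠ (u * b) % r := by
    intro a b ha hb hab
    have h1 := hcancel _ _ hab
    rw [hmod a ha, Nat.mod_eq_of_lt (by omega : b < r)] at h1
    omega
  have hcoef : ∀ i : ℕ, c p N i = ∑ a ∈ Finset.range (κ + 1),
      c p κ a * ((if i = (u * (a + m)) % r then 1 else 0) - (if i = (u * a) % r then 1 else 0)) := by
    intro i
    have h1 := congrArg (fun f : (ZMod p)[X] => f.coeff i) hfold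
    beta_reduce at h1
    rw [finsetSum_coeff] at h1
    unfold c
    rw [h1]
    refine Finset.sum_congr rfl fun a _ => ?_
    rw [coeff_C_mul, coeff_sub, coeff_X_pow, coeff_X_pow]
    rfl
  have hle1 : ∀ a : ℕ, c p κ a ≠ 0 → a ≤ κ := by
    intro a ha
    by_contra hcon
    exact ha (c_zero_of_lt p (by omega))
  have hle : ∀ a : ℕ, c p κ a ≠ 0 → (u * a) % r ≤ N := by
    intro a ha
    by_contra hcon
    have h1 := hcoef ((u * a) % r)
    rw [c_zero_of_lt p (by omega)] at h1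
    rw [Finset.sum_eq_single a] at h1
    · rw [if_neg (hw3 a a (hle1 a ha) (hle1 a ha)).symm, if_pos rfl] at h1
      apply ha
      linear_combination h1
    · intro b hb hba
      have hb' : b ≤ κ := by have := Finset.mem_range.1 hb; omega
      rw [if_neg (hw3 b a hb' (hle1 a ha)).symm, if_neg, sub_zero, mul_zero]
      intro h2
      exact hba ((hw1 a b (hle1 a ha) hb').1 h2).symm
    · intro hna
      exact absurd (Finset.mem_range.2 (by have := hle1 a ha; omega)) hna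
  have hle' : ∀ a : ℕ, c p κ a ≠ 0 → (u * (a + m)) % r ≤ N := by
    intro a ha
    by_contra hcon
    have h1 := hcoef ((u * (a + m)) % r)
    rw [c_zero_of_lt p (by omega)] at h1
    rw [Finset.sum_eq_single a] at h1
    · rw [if_pos rfl, if_neg (hw3 a a (hle1 a ha) (hle1 a ha))] at h1
      apply ha
      linear_combination -h1
    · intro b hb hba
      have hb' : b ≤ κ := by have := Finset.mem_range.1 hb; omega
      rw [if_neg, if_neg (hw3 a b (hle1 a ha) hb'), sub_zero, mul_zero]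
      intro h2
      exact hba ((hw2 a b (hle1 a ha) hb').1 h2).symm
    · intro hna
      exact absurd (Finset.mem_range.2 (by have := hle1 a ha; omega)) hna
  have hc0 : c p κ 0 ≠ 0 := by
    rw [c_ne_iff, Nat.choose_zero_right, Nat.cast_one]
    exact one_ne_zero
  have hadd : ∀ a b : ℕ, c p κ a ≠ 0 → c p κ b ≠ 0 →
      (u * (a + b)) % r = (u * a) % r + (u * b) % r := by
    intro a b ha hb
    rw [mul_add, Nat.add_mod, Nat.mod_eq_of_lt]
    have h1 := hle a ha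
    have h2 := hle b hb
    omega
  have hadd' : ∀ a : ℕ, c p κ a ≠ 0 →
      (u * (a + m)) % r = (u * (0 + m)) % r + (u * a) % r := by
    intro a ha
    have h1 := hle a ha
    have h2 := hle' 0 hc0
    rw [zero_add] at h2 ⊢
    rw [add_comm a m, mul_add, Nat.add_mod, Nat.mod_eq_of_lt]
    omega
  obtain ⟨L, hL1, hL2, hL3⟩ := lemT p κ (B := (ZMod p)[X]) (fun i => X ^ ((u * i) % r))
    (by simp) (by
      intro i j hi hj _
      rw [hadd i j hi hj, pow_add])
  have hfac : ∑ a ∈ Finset.range (κ + 1),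
      C (c p κ a) * (X ^ ((u * (a + m)) % r) - X ^ ((u * a) % r)) =
      (X ^ ((u * (0 + m)) % r) - 1 : (ZMod p)[X]) *
        ∑ i ∈ Finset.range (κ + 1), c p κ i • X ^ ((u * i) % r) := by
    rw [Finset.mul_sum]
    refine Finset.sum_congr rfl fun a _ => ?_
    by_cases ha : c p κ a = 0
    · rw [ha, C_0, zero_mul, zero_smul, mul_zero]
    · rw [hadd' a ha, smul_eq_C_mul, pow_add]
      ring
  rw [hfac, hL3] at hfold
  have hV : ((((u * (0 + m)) % r) ::ₘ L.map (fun l => (u * p ^ l) % r)).map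
      (fun v => (X ^ v - 1 : (ZMod p)[X]))).prod = (X - 1) ^ (N - 1) * (X ^ 1 - 1) := by
    rw [Multiset.map_cons, Multiset.prod_cons, Multiset.map_map, pow_one, ← pow_succ,
      Nat.sub_add_cancel hN1, hfold]
    rfl
  obtain ⟨hsum, h', s', hs', _, hall, _, _⟩ := lemW p _ (N - 1) 1 le_rfl hV
  rw [Nat.sub_add_cancel hN1, Multiset.sum_cons] at hsum
  have hs'1 : s' = 1 := Nat.eq_one_of_mul_eq_one_left hs'.symm
  have hpow : ∀ v ∈ (((u * (0 + m)) % r) ::ₘ L.map (fun l => (u * p ^ l) % r)), ∃ g, v = p ^ g := by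
    intro v hv
    obtain ⟨g, hg⟩ := hall v hv
    rw [hs'1, mul_one, or_self] at hg
    exact ⟨g, hg⟩
  obtain ⟨f, hf⟩ := hpow _ (Multiset.mem_cons_self _ _)
  obtain ⟨l, hl⟩ : ∃ l, l ∈ L := by
    refine Multiset.exists_mem_of_ne_zero fun h0 => ?_
    rw [h0, Multiset.map_zero, Multiset.sum_zero] at hL1
    omega
  have hlmem : (u * p ^ l) % r ∈ L.map (fun l => (u * p ^ l) % r) :=
    Multiset.mem_map.2 ⟨l, hl, rfl⟩
  obtain ⟨g, hg⟩ := hpow _ (Multiset.mem_cons_of_mem hlmem)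
  have hback : ∀ x y : ℕ, u * x ≡ y [MOD r] → x ≡ p ^ e * y [MOD r] := by
    intro x y hxy
    have h1 : p ^ e * (u * x) ≡ p ^ e * y [MOD r] := hxy.mul_left _
    have h2 : u * p ^ e * x ≡ 1 * x [MOD r] := hu1.mul_right x
    rw [one_mul] at h2
    have h3 : p ^ e * (u * x) = u * p ^ e * x := by ring
    rw [h3] at h1
    exact h2.symm.trans h1
  refine ⟨⟨e + f, ?_⟩, e + g, l, ?_, ?_, ?_⟩
  · rw [pow_add]
    apply hback
    rw [← hf, zero_add]
    exact (Nat.mod_modEq _ _).symm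
  · have h1 : p ^ l ≤ κ := by
      rw [← hL1]
      exact Multiset.le_sum_of_mem (Multiset.mem_map.2 ⟨l, hl, rfl⟩)
    have h2 : p ^ e ≤ p ^ (e + g) := Nat.pow_le_pow_right hp.pos (by omega)
    exact (Nat.pow_lt_pow_iff_right hp.one_lt).1 (by omega)
  · rw [pow_add]
    refine (hback _ _ ?_).symm
    rw [← hg]
    exact (Nat.mod_modEq _ _).symm
  · have h1 : (u * p ^ l) % r ≤ (L.map (fun l => (u * p ^ l) % r)).sum :=
      Multiset.le_sum_of_mem hlmem
    have h2 : 1 ≤ p ^ f := Nat.one_le_pow _ _ hp.pos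
    have h3 : 1 + p ^ g ≤ N := by
      rw [hf] at hsum
      rw [hg] at h1
      omega
    have h4 : p ^ e * (1 + p ^ g) ≤ p ^ e * N := Nat.mul_le_mul_left _ h3
    rw [mul_add, mul_one, ← pow_add] at h4
    have h5 : 0 < p ^ l := pow_pos hp.pos _
    omega

end Pool.Agent.Helper49.Agr
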