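import Pool.Agent.Helper49.Agr.LemT
import Pool.Agent.Helper49.Agr.LemW

/-!
AGR CASE2.  `P = p^e`, `P N = m + κ`, `1 ≤ κ < P`, `N < r`, `r ≤ s + κ` where `s = m % r`, `4 κ < r`.

PROOF.  Let `σ = r - s`, so `1 ≤ σ ≤ κ`, `m ≡ -σ` mod `r`.  `σ ≠ κ`: otherwise `r ∣ m + κ = P N`, so
`r ∣ N`, but `0 < N < r` (`N > 0` since `m + κ > 0`).  So `σ < κ`.
`key` (`Defs.lean`): `(X^P - 1)^N ≡ (X-1)^κ (X^m - 1)` mod `X^r - 1`.  Apply `fold r 1 σ`:
left: `∑_w c_N(w) X^(β w)`, `β w = (P w + σ) % r`; right: `∑_{a ≤ κ} c_κ(a) (X^a - X^(a+σ)) =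
-(X-1)^κ (X^σ - 1)` (as `a + m + σ ≡ a`, `a + σ < r`).  So
`∑_{w ≤ N} c_N(w) X^(β w) = -(X-1)^κ (X^σ - 1)`.                                          (1)
The `β w` (`0 ≤ w ≤ N < r`) are pairwise different (`P` is invertible mod `r`), so `c_N(w) ≠ 0` implies
`β w ≤ κ + σ` (degree of the right side).  Put `α w = β w - σ ∈ ℤ`, `-σ ≤ α w ≤ κ`, `α w ≡ P w` mod `r`,
`α 0 = 0`.  If `c_N(w), c_N(w'), c_N(w+w') ≠ 0` then `α(w+w') = α(w) + α(w')`: congruent mod `r`, and the
difference is `≤ 2κ + σ` and `≥ -(2σ + κ)`, absolute value `≤ 3κ < r`.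
`lemT` with `B = LaurentPolynomial (ZMod p)`, `x w = T (α w)` gives, with `u_l = α(p^l)`,
`∑ c_N(w) T(α w) = ∏_{l ∈ L} (T(u_l) - 1)`, `∑_{l ∈ L} p^l = N`, `c_N(p^l) ≠ 0`.  Multiply by `T σ`:
`T σ * ∏_{l ∈ L} (T(u_l) - 1) = -(T-1)^κ (T^σ - 1)`.  All `u_l ≠ 0` (the right side is not `0`).  For
`u < 0`: `T u - 1 = -T(-|u|) (T|u| - 1)`.  Let `ν = ∑_{u_l < 0} |u_l|`, `ε = ±1` the sign.  So
`X^σ * ∏_l (X^|u_l| - 1) = ε' X^ν (X-1)^κ (X^σ - 1)` in `(ZMod p)[X]` (`Polynomial.toLaurent` is injective).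
The products have nonzero constant coefficient, so `ν = σ`, and comparing leading coefficients `ε' = 1`:
`∏_{l ∈ L} (X^|u_l| - 1) = (X-1)^κ (X^σ - 1)`,  `∑_{u_l < 0} |u_l| = σ`.                      (2)
`lemW` (`V = L.map |u_l|`): `∑ |u_l| = κ + σ` (so `∑_{u_l > 0} u_l = κ`), `σ = p^h s'`, `p ∤ s'`, each
`|u_l|` is `p^g` or `p^g s'`, some `|u_l| = p^g s'`, and if `s' ≠ 1` the `|u_l|` which are powers of `p`
(equivalently: not divisible by `s'`) have sum `κ`.
* There is `l₀ ∈ L` with `u_{l₀} = p^g > 0`: if `s' = 1` take any `u_l > 0` (sum `κ ≥ 1`); if `s' ≠ 1`: if all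
  `l` with `|u_l|` a power of `p` had `u_l < 0` then `κ = ∑ ≤ ν = σ < κ`, contradiction.
  `p^g = u_{l₀} ≤ κ < P ≤ p^(e+l₀)` and `p^g ≡ P p^{l₀} = p^(e+l₀)` mod `r`: `a := e + l₀`, `b := g`.  There is
  also a `l` with `u_l < 0` (sum `σ ≥ 1`), so `N = ∑ p^l ≥ p^{l₀} + 1` and
  `m = P N - κ > P (N-1) ≥ P p^{l₀} = p^a`.
* `m ≡ p^j`: Let `H` be the set of residues `≡ p^j`, a subgroup of the units mod `r` (finite order:
  `p^{φ(r)} ≡ 1`), e.g. `Subgroup.zpowers` of the unit `p`.  `u_l ≡ P p^l ∈ H` for all `l`.  Take `l₁` with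
  `u_{l₁} < 0`, `|u_{l₁}| = p^{g₁}` or `p^{g₁} s'`.  If `|u_{l₁}| = p^{g₁} s'` then `-s' ∈ H` and
  `m ≡ -σ = -p^h s' ∈ H`.  If `|u_{l₁}| = p^{g₁}` then `-1 ∈ H`; for `l₂` with `|u_{l₂}| = p^{g₂} s'`:
  `± s' ∈ H`, so `s' ∈ H`, `-s' ∈ H`, again `m ∈ H`.
-/

set_option autoImplicit false

namespace Pool.Agent.Helper49.Agr

open Polynomial

/-- a polynomial of degree `< r` is its own folding -/
private lemma fold_self' {R : Type} [CommRing R] {r : ℕ} (G : R[X]) (hG : G.natDegree < r) :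
    fold r 1 0 G = G := by
  conv_lhs => rw [as_sum_range' G r hG]
  conv_rhs => rw [as_sum_range' G r hG]
  rw [map_sum]
  refine Finset.sum_congr rfl fun i hi => ?_
  rw [fold_monomial, one_mul, add_zero, Nat.mod_eq_of_lt (Finset.mem_range.mp hi)]

/-- residues which are powers of `p` -/
private def InH (p r : ℕ) (a : ZMod r) : Prop := ∃ j : ℕ, a = (p : ZMod r) ^ j

private lemma InH.mul {p r : ℕ} {a b : ZMod r} (ha : InH p r a) (hb : InH p r b) :
    InH p r (a * b) := by
  obtain ⟨i, rfl⟩ := ha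
  obtain ⟨j, rfl⟩ := hb
  exact ⟨i + j, (pow_add _ _ _).symm⟩

private lemma InH.cancel {p r : ℕ} (hpr : Nat.Coprime p r) (hr : 0 < r) {g : ℕ} {a : ZMod r}
    (h : InH p r ((p : ZMod r) ^ g * a)) : InH p r a := by
  obtain ⟨j, hj⟩ := h
  have hφ : 0 < Nat.totient r := Nat.totient_pos.mpr hr
  have hφ1 : (p : ZMod r) ^ Nat.totient r = 1 := by
    have := (ZMod.natCast_eq_natCast_iff _ _ _).mpr (Nat.ModEq.pow_totient hpr)
    simpa using this
  refine ⟨(Nat.totient r - 1) * g + j, ?_⟩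
  rw [pow_add, ← hj, ← mul_assoc, ← pow_add]
  have h2 : (Nat.totient r - 1) * g + g = Nat.totient r * g := by
    obtain ⟨t, ht⟩ : ∃ t, Nat.totient r = t + 1 := ⟨Nat.totient r - 1, by omega⟩
    rw [ht]
    simp
    ring
  rw [h2, pow_mul, hφ1, one_pow, one_mul]

/-- comparing the powers of `X` -/
private lemma xpow_cmp {R : Type} [CommRing R] {a b : ℕ} {A B : R[X]}
    (h : X ^ a * A = X ^ b * B) (hA : A.coeff 0 ≠ 0) : b ≤ a := by
  by_contra hc
  obtain ⟨d, hd⟩ : ∃ d, b = a + (d + 1) := ⟨b - a - 1, by omega⟩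
  have h1 : (X ^ a * A).coeff a = (X ^ b * B).coeff a := by rw [h]
  rw [coeff_X_pow_mul', coeff_X_pow_mul', if_pos le_rfl, if_neg (by omega), Nat.sub_self] at h1
  exact hA h1

/-- the sign factor -/
private lemma sign_factor {R : Type} [CommRing R] (u : ℤ) :
    (LaurentPolynomial.T (((-u).toNat : ℕ) : ℤ) : LaurentPolynomial R) *
      (LaurentPolynomial.T u - 1) =
    Polynomial.toLaurent ((if u < 0 then (-1 : R[X]) else 1) * (X ^ u.natAbs - 1)) := by
  rcases lt_or_ge u 0 with hu | hu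
  · rw [if_pos hu]
    have h1 : (((-u).toNat : ℕ) : ℤ) = -u := Int.toNat_of_nonneg (by omega)
    have h2 : ((u.natAbs : ℕ) : ℤ) = -u := by omega
    rw [h1, map_mul, map_neg, map_one, map_sub, map_one, Polynomial.toLaurent_X_pow, h2, mul_sub,
      ← LaurentPolynomial.T_add]
    simp
  · rw [if_neg (by omega)]
    have h1 : (((-u).toNat : ℕ) : ℤ) = 0 := by omega
    have h2 : ((u.natAbs : ℕ) : ℤ) = u := by omega
    rw [h1, one_mul, map_sub, map_one, Polynomial.toLaurent_X_pow, h2]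
    simp

private lemma prod_sign {R : Type} [CommRing R] (L : Multiset ℕ) (u : ℕ → ℤ) :
    (LaurentPolynomial.T (((L.map (fun l => (-(u l)).toNat)).sum : ℕ) : ℤ) :
      LaurentPolynomial R) * (L.map (fun l => LaurentPolynomial.T (u l) - 1)).prod =
    Polynomial.toLaurent ((L.map (fun l => (if u l < 0 then (-1 : R[X]) else 1))).prod *
      (L.map (fun l => (X ^ (u l).natAbs - 1 : R[X]))).prod) := by
  induction L using Multiset.induction_on with
  | empty => simp
  | cons a L ih =>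
    simp only [Multiset.map_cons, Multiset.sum_cons, Multiset.prod_cons]
    have h1 := sign_factor (R := R) (u a)
    rw [Nat.cast_add, LaurentPolynomial.T_add]
    calc _ = ((LaurentPolynomial.T (((-(u a)).toNat : ℕ) : ℤ) : LaurentPolynomial R) *
          (LaurentPolynomial.T (u a) - 1)) *
          ((LaurentPolynomial.T (((L.map (fun l => (-(u l)).toNat)).sum : ℕ) : ℤ) :
      LaurentPolynomial R) * (L.map (fun l => LaurentPolynomial.T (u l) - 1)).prod) := by ring
      _ = _ := by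
        rw [h1, ih, ← map_mul]
        congr 1
        ring

private lemma sign_pm (L : Multiset ℕ) (u : ℕ → ℤ) {R : Type} [CommRing R] :
    (L.map (fun l => (if u l < 0 then (-1 : R[X]) else 1))).prod = 1 ∨
    (L.map (fun l => (if u l < 0 then (-1 : R[X]) else 1))).prod = -1 := by
  induction L using Multiset.induction_on with
  | empty => simp
  | cons a L ih =>
    simp only [Multiset.map_cons, Multiset.prod_cons]
    split_ifs <;> rcases ih with ih | ih <;> rw [ih] <;> simp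

private lemma prod_coeff_zero {F : Type} [Field F] (V : Multiset ℕ) (hV : ∀ v ∈ V, v ≠ 0) :
    ((V.map (fun v => (X ^ v - 1 : F[X]))).prod).coeff 0 ≠ 0 := by
  rw [coeff_zero_eq_eval_zero, eval_multiset_prod, Multiset.map_map]
  refine Multiset.prod_ne_zero ?_
  intro h
  obtain ⟨v, hv, hv'⟩ := Multiset.mem_map.mp h
  simp [hV v hv] at hv'

private lemma prod_monic {F : Type} [Field F] (V : Multiset ℕ) (hV : ∀ v ∈ V, v ≠ 0) :
    ((V.map (fun v => (X ^ v - 1 : F[X]))).prod).Monic := by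
  refine monic_multiset_prod_of_monic _ _ fun v hv => ?_
  have := monic_X_pow_sub_C (1 : F) (hV v hv)
  simpa using this

theorem case2 (p : ℕ) [Fact p.Prime] (r m e N κ : ℕ) (hpr : Nat.Coprime p r)
    (hN : p ^ e * N = m + κ) (hκ1 : 1 ≤ κ) (hκP : κ < p ^ e) (h2N : 2 * N < r) (h4 : 4 * κ < r)
    (hs : r ≤ m % r + κ) (h : Loc p r m) : Concl p r m := by
  classical
  have hp : p.Prime := Fact.out
  have hp1 : 1 < p := hp.one_lt
  have hr0 : 0 < r := by omega
  have hN0 : 0 < N := by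
    rcases Nat.eq_zero_or_pos N with h0 | h0
    · rw [h0, mul_zero] at hN; omega
    · exact h0
  have hms : r * (m / r) + m % r = m := Nat.div_add_mod m r
  have hmr : m % r < r := Nat.mod_lt _ hr0
  obtain ⟨σ, hσ⟩ : ∃ σ, σ = r - m % r := ⟨_, rfl⟩
  have hσ1 : 1 ≤ σ := by omega
  have hmσ : m + σ = r * (m / r + 1) := by
    rw [mul_add, mul_one]; omega
  have hσκ : σ < κ := by
    rcases Nat.lt_or_ge σ κ with h0 | h0
    · exact h0
    · exfalso
      have h1 : σ = κ := by omega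
      rw [h1, ← hN] at hmσ
      have h2 : r ∣ p ^ e * N := ⟨_, hmσ⟩
      have h3 : r ∣ N := (Nat.Coprime.dvd_of_dvd_mul_left
        (Nat.Coprime.pow_right e hpr.symm) h2)
      have := Nat.le_of_dvd hN0 h3
      omega
  -- the exponents
  obtain ⟨β, hβ⟩ : ∃ β : ℕ → ℕ, β = fun w => (p ^ e * w + σ) % r := ⟨_, rfl⟩
  have hβmod : ∀ w, β w ≡ p ^ e * w + σ [MOD r] := by
    intro w; rw [hβ]; exact Nat.mod_modEq _ _
  have hβlt : ∀ w, β w < r := by
    intro w; rw [hβ]; exact Nat.mod_lt _ hr0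
  have hβinj : ∀ w ≤ N, ∀ w' ≤ N, β w = β w' → w = w' := by
    intro w hw w' hw' hww
    have h1 : p ^ e * w + σ ≡ p ^ e * w' + σ [MOD r] := by
      have := (hβmod w).symm.trans (hww ▸ hβmod w')
      exact this
    have h2 : p ^ e * w ≡ p ^ e * w' [MOD r] := Nat.ModEq.add_right_cancel' _ h1
    have h3 : w ≡ w' [MOD r] :=
      Nat.ModEq.cancel_left_of_coprime (Nat.Coprime.pow_right e hpr.symm) h2
    have h4 : w % r = w' % r := h3
    rwa [Nat.mod_eq_of_lt (by omega), Nat.mod_eq_of_lt (by omega)] at h4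
  -- the folded identity (1)
  have hd1 : (X - 1 : (ZMod p)[X]).natDegree ≤ 1 := by
    have : (X - 1 : (ZMod p)[X]) = X - C 1 := by simp
    rw [this]
    exact natDegree_X_sub_C_le 1
  have hdB : ((X - 1 : (ZMod p)[X]) ^ κ * (X ^ σ - 1)).natDegree ≤ κ + σ := by
    have hd2 : ((X - 1 : (ZMod p)[X]) ^ κ).natDegree ≤ κ := by
      refine natDegree_pow_le.trans ?_
      nlinarith
    have hd3 : (X ^ σ - 1 : (ZMod p)[X]).natDegree ≤ σ := by
      refine (natDegree_sub_le _ _).trans ?_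
      simp
    have := natDegree_mul_le (p := (X - 1 : (ZMod p)[X]) ^ κ) (q := (X ^ σ - 1 : (ZMod p)[X]))
    omega
  have hone : ∑ w ∈ Finset.range (N + 1), C (c p N w) * (X ^ (β w) : (ZMod p)[X]) =
      -((X - 1) ^ κ * (X ^ σ - 1)) := by
    have e1 : fold r 1 0 (X ^ σ * (X ^ p ^ e - 1 : (ZMod p)[X]) ^ N) =
        ∑ w ∈ Finset.range (N + 1), C (c p N w) * (X ^ (β w) : (ZMod p)[X]) := by
      have h1 : (X ^ p ^ e - 1 : (ZMod p)[X]) ^ N =
          ∑ i ∈ Finset.range (N + 1), C (c p N i) * X ^ (p ^ e * i) := by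
        have h2 := congrArg (Polynomial.expand (ZMod p) (p ^ e)) (pow_eq_sum p N)
        rw [map_pow, map_sub, Polynomial.expand_X, map_one, map_sum] at h2
        rw [h2]
        refine Finset.sum_congr rfl fun i _ => ?_
        rw [map_mul, Polynomial.expand_C, map_pow, Polynomial.expand_X, pow_mul]
      rw [h1, Finset.mul_sum, map_sum]
      refine Finset.sum_congr rfl fun i _ => ?_
      have h3 : (X ^ σ * (C (c p N i) * X ^ (p ^ e * i)) : (ZMod p)[X]) =
          C (c p N i) * X ^ (p ^ e * i + σ) := by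
        rw [pow_add]; ring
      rw [h3, fold_C_mul_X_pow, one_mul, add_zero, hβ]
    have e2 : (X ^ r - 1 : (ZMod p)[X]) ∣ X ^ σ * (X ^ p ^ e - 1 : (ZMod p)[X]) ^ N -
        -((X - 1) ^ κ * (X ^ σ - 1)) := by
      have h1 : (X ^ r - 1 : (ZMod p)[X]) ∣ X ^ σ * ((X ^ p ^ e - 1 : (ZMod p)[X]) ^ N -
          (X - 1) ^ κ * (X ^ m - 1)) := Dvd.dvd.mul_left (key h hN) _
      have h2 : (X ^ r - 1 : (ZMod p)[X]) ∣ (X - 1) ^ κ * ((X ^ r) ^ (m / r + 1) - 1) := by
        refine Dvd.dvd.mul_left ?_ _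
        simpa using sub_dvd_pow_sub_pow (X ^ r : (ZMod p)[X]) 1 (m / r + 1)
      have h3 : (X ^ σ * (X ^ p ^ e - 1 : (ZMod p)[X]) ^ N - -((X - 1) ^ κ * (X ^ σ - 1)) :
          (ZMod p)[X]) = X ^ σ * ((X ^ p ^ e - 1 : (ZMod p)[X]) ^ N -
          (X - 1) ^ κ * (X ^ m - 1)) + (X - 1) ^ κ * ((X ^ r) ^ (m / r + 1) - 1) := by
        rw [← pow_mul, ← hmσ, pow_add]
        ring
      rw [h3]
      exact dvd_add h1 h2
    rw [← e1, fold_congr e2]
    apply fold_self'
    rw [natDegree_neg]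
    omega
  have hcoef : ∀ w ≤ N, c p N w ≠ 0 → β w ≤ κ + σ := by
    intro w hw hcw
    have h1 := congrArg (fun F : (ZMod p)[X] => F.coeff (β w)) hone
    simp only [finsetSum_coeff, coeff_C_mul, coeff_X_pow] at h1
    rw [Finset.sum_eq_single_of_mem w (Finset.mem_range.mpr (by omega))] at h1
    · rw [if_pos rfl, mul_one] at h1
      by_contra hcon
      apply hcw
      rw [h1, coeff_neg, coeff_eq_zero_of_natDegree_lt (by omega), neg_zero]
    · intro w' hw' hne
      rw [if_neg, mul_zero]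
      intro h2
      exact hne (hβinj w' (by have := Finset.mem_range.mp hw'; omega) w hw h2.symm)
  have hβ0 : β 0 = σ := by
    rw [hβ]
    simp only [mul_zero, zero_add]
    exact Nat.mod_eq_of_lt (by omega)
  have hβadd : ∀ i j, c p N i ≠ 0 → c p N j ≠ 0 → c p N (i + j) ≠ 0 →
      β (i + j) + σ = β i + β j := by
    intro i j hi hj hij
    have hi' : i ≤ N := by
      by_contra h0; exact hi (c_zero_of_lt p (by omega))
    have hj' : j ≤ N := by
      by_contra h0; exact hj (c_zero_of_lt p (by omega))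
    have hij' : i + j ≤ N := by
      by_contra h0; exact hij (c_zero_of_lt p (by omega))
    have b1 := hcoef i hi' hi
    have b2 := hcoef j hj' hj
    have b3 := hcoef _ hij' hij
    have h1 : β (i + j) + σ ≡ β i + β j [MOD r] := by
      have h2 : β i + β j ≡ (p ^ e * i + σ) + (p ^ e * j + σ) [MOD r] :=
        (hβmod i).add (hβmod j)
      have h3 : β (i + j) + σ ≡ (p ^ e * (i + j) + σ) + σ [MOD r] :=
        (hβmod (i + j)).add_right _
      have h4 : (p ^ e * (i + j) + σ) + σ = (p ^ e * i + σ) + (p ^ e * j + σ) := by ring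
      rw [h4] at h3
      exact h3.trans h2.symm
    have h5 : (β (i + j) + σ) % r = (β i + β j) % r := h1
    rwa [Nat.mod_eq_of_lt (by omega), Nat.mod_eq_of_lt (by omega)] at h5
  -- the structure lemma in the Laurent polynomials
  obtain ⟨L, hLs, hLc, hL⟩ := lemT p N (B := LaurentPolynomial (ZMod p))
    (fun w => LaurentPolynomial.T ((β w : ℤ) - σ)) (by
      show (LaurentPolynomial.T ((β 0 : ℤ) - σ) : LaurentPolynomial (ZMod p)) = 1
      rw [hβ0, sub_self, LaurentPolynomial.T_zero])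
    (by
      intro i j hi hj hij
      have h1 := hβadd i j hi hj hij
      show (LaurentPolynomial.T ((β (i + j) : ℤ) - σ) : LaurentPolynomial (ZMod p)) =
        LaurentPolynomial.T ((β i : ℤ) - σ) * LaurentPolynomial.T ((β j : ℤ) - σ)
      rw [← LaurentPolynomial.T_add]
      congr 1
      have h2 : (β (i + j) : ℤ) + σ = β i + β j := by exact_mod_cast h1
      linarith)
  obtain ⟨u, hu⟩ : ∃ u : ℕ → ℤ, u = fun l => (β (p ^ l) : ℤ) - σ := ⟨_, rfl⟩
  have hLprod : (L.map (fun l => (LaurentPolynomial.T ((β (p ^ l) : ℤ) - σ) - 1 :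
      LaurentPolynomial (ZMod p)))).prod =
      (L.map (fun l => (LaurentPolynomial.T (u l) - 1 : LaurentPolynomial (ZMod p)))).prod := by
    rw [hu]
  have hLau : (LaurentPolynomial.T (σ : ℤ) : LaurentPolynomial (ZMod p)) *
      (L.map (fun l => (LaurentPolynomial.T (u l) - 1 : LaurentPolynomial (ZMod p)))).prod =
      Polynomial.toLaurent (-((X - 1) ^ κ * (X ^ σ - 1))) := by
    rw [← hone, map_sum, ← hLprod]
    have h0 : ((L.map (fun l => (LaurentPolynomial.T ((β (p ^ l) : ℤ) - σ) - 1 :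
      LaurentPolynomial (ZMod p)))).prod) = ∑ i ∈ Finset.range (N + 1),
        c p N i • (LaurentPolynomial.T ((β i : ℤ) - σ) : LaurentPolynomial (ZMod p)) := hL.symm
    rw [h0, Finset.mul_sum]
    refine Finset.sum_congr rfl fun w _ => ?_
    rw [LaurentPolynomial.smul_eq_C_mul, Polynomial.toLaurent_C_mul_X_pow, mul_left_comm,
      ← LaurentPolynomial.T_add]
    congr 2
    ring
  obtain ⟨ν, hν⟩ : ∃ ν, ν = (L.map (fun l => (-(u l)).toNat)).sum := ⟨_, rfl⟩
  obtain ⟨A, hA⟩ : ∃ A : (ZMod p)[X], A = (L.map (fun l => (X ^ (u l).natAbs - 1 : (ZMod p)[X]))).prod :=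
    ⟨_, rfl⟩
  obtain ⟨ε, hε⟩ : ∃ ε : (ZMod p)[X],
    ε = (L.map (fun l => (if u l < 0 then (-1 : (ZMod p)[X]) else 1))).prod := ⟨_, rfl⟩
  have hε1 : ε = 1 ∨ ε = -1 := by rw [hε]; exact sign_pm L u
  have hpoly : X ^ σ * (ε * A) = X ^ ν * (-((X - 1) ^ κ * (X ^ σ - 1)) : (ZMod p)[X]) := by
    apply Polynomial.toLaurent_injective
    have e1 : Polynomial.toLaurent (X ^ σ * (ε * A)) =
        LaurentPolynomial.T (σ : ℤ) * Polynomial.toLaurent (ε * A) := by
      rw [map_mul, Polynomial.toLaurent_X_pow]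
    have e2 : Polynomial.toLaurent (X ^ ν * (-((X - 1) ^ κ * (X ^ σ - 1)) : (ZMod p)[X])) =
        LaurentPolynomial.T (ν : ℤ) *
          Polynomial.toLaurent (-((X - 1) ^ κ * (X ^ σ - 1)) : (ZMod p)[X]) := by
      rw [map_mul, Polynomial.toLaurent_X_pow]
    rw [e1, e2, ← hLau, hε, hA, ← prod_sign L u, ← hν]
    ring
  have hBm : ((X - 1) ^ κ * (X ^ σ - 1) : (ZMod p)[X]).Monic := by
    refine Monic.mul (Monic.pow ?_ _) ?_
    · simpa using monic_X_sub_C (1 : ZMod p)
    · simpa using monic_X_pow_sub_C (1 : ZMod p) (by omega : σ ≠ 0)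
  have hA0 : A ≠ 0 := by
    rintro h0
    rw [h0, mul_zero, mul_zero] at hpoly
    have h1 := (mul_eq_zero.mp hpoly.symm).resolve_left (pow_ne_zero _ X_ne_zero)
    exact hBm.ne_zero (neg_eq_zero.mp h1)
  have hAeq : A = ((L.map (fun l => (u l).natAbs)).map (fun v => (X ^ v - 1 : (ZMod p)[X]))).prod := by
    rw [hA, Multiset.map_map]
    rfl
  have hn0 : ∀ v ∈ L.map (fun l => (u l).natAbs), v ≠ 0 := by
    rintro v hv rfl
    apply hA0
    rw [hAeq]
    apply Multiset.prod_eq_zero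
    refine Multiset.mem_map.mpr ⟨0, hv, by simp⟩
  have hAc : A.coeff 0 ≠ 0 := by rw [hAeq]; exact prod_coeff_zero _ hn0
  have hAm : A.Monic := by rw [hAeq]; exact prod_monic _ hn0
  have hεA : (ε * A).coeff 0 ≠ 0 := by
    rcases hε1 with h1 | h1
    · rw [h1, one_mul]; exact hAc
    · rw [h1, neg_one_mul, coeff_neg]; exact neg_ne_zero.mpr hAc
  have hBc : (-((X - 1) ^ κ * (X ^ σ - 1)) : (ZMod p)[X]).coeff 0 ≠ 0 := by
    rw [coeff_neg, neg_ne_zero, coeff_zero_eq_eval_zero]
    have hσ0 : σ ≠ 0 := by omega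
    simp [eval_mul, eval_pow, zero_pow hσ0]
  have hνσ : ν = σ := le_antisymm (xpow_cmp hpoly hεA) (xpow_cmp hpoly.symm hBc)
  rw [hνσ] at hpoly
  have hpoly2 : ε * A = -((X - 1) ^ κ * (X ^ σ - 1)) :=
    mul_left_cancel₀ (pow_ne_zero σ X_ne_zero) hpoly
  have hAB : A = (X - 1) ^ κ * (X ^ σ - 1) := by
    rcases hε1 with h1 | h1
    · rw [h1, one_mul] at hpoly2
      have h2 := congrArg Polynomial.leadingCoeff hpoly2
      rw [leadingCoeff_neg, hAm.leadingCoeff, hBm.leadingCoeff] at h2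
      -- `1 = -1`
      rw [hpoly2]
      have h3 : (-1 : (ZMod p)[X]) = 1 := by
        have := congrArg (Polynomial.C : ZMod p → (ZMod p)[X]) h2
        simpa using this.symm
      rw [← neg_one_mul, h3, one_mul]
    · rw [h1, neg_one_mul] at hpoly2
      exact neg_injective hpoly2
  obtain ⟨hVsum, h', s', hs', hps', hVg, ⟨v2, hv2V, g2, hvg2⟩, hfil⟩ :=
    lemW p (L.map (fun l => (u l).natAbs)) κ σ hσ1 (by rw [← hAeq, hAB])
  -- congruences
  have hcong : ∀ l, (((u l : ℤ)) : ZMod r) = (p : ZMod r) ^ (e + l) := by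
    intro l
    have h1 : ((β (p ^ l) : ℕ) : ZMod r) = ((p ^ e * p ^ l + σ : ℕ) : ZMod r) :=
      (ZMod.natCast_eq_natCast_iff _ _ _).mpr (hβmod _)
    rw [hu]
    push_cast at h1 ⊢
    rw [h1, pow_add]
    ring
  -- `l₀`
  have hex : ∃ l ∈ L, 0 < u l ∧ ∃ g, (u l).natAbs = p ^ g := by
    by_contra hcon
    push Not at hcon
    by_cases hs'1 : s' = 1
    · have h1 : ∀ l ∈ L, (u l).natAbs = (-(u l)).toNat := by
        intro l hl
        by_contra h2
        have h3 : 0 < u l := by omega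
        obtain ⟨g, hg⟩ := hVg _ (Multiset.mem_map_of_mem _ hl)
        rw [hs'1, mul_one, or_self] at hg
        exact hcon l hl h3 g hg
      have h2 : L.map (fun l => (u l).natAbs) = L.map (fun l => (-(u l)).toNat) :=
        Multiset.map_congr rfl h1
      rw [h2, ← hν, hνσ] at hVsum
      omega
    · have h1 := hfil hs'1
      rw [Multiset.filter_map] at h1
      have h2 : (L.filter ((fun v => ¬ s' ∣ v) ∘ fun l => (u l).natAbs)).map
          (fun l => (u l).natAbs) =
          (L.filter ((fun v => ¬ s' ∣ v) ∘ fun l => (u l).natAbs)).map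
          (fun l => (-(u l)).toNat) := by
        refine Multiset.map_congr rfl fun l hl => ?_
        obtain ⟨hlL, hl'⟩ := Multiset.mem_filter.mp hl
        by_contra h2
        have h3 : 0 < u l := by omega
        obtain ⟨g, hg⟩ := hVg _ (Multiset.mem_map_of_mem _ hlL)
        rcases hg with hg | hg
        · exact hcon l hlL h3 g hg
        · exact absurd (by
            have : s' ∣ p ^ g * s' := Dvd.intro_left _ rfl
            rwa [← hg] at this) hl'
      rw [h2] at h1
      have h4 := Multiset.filter_add_not ((fun v => ¬ s' ∣ v) ∘ fun l => (u l).natAbs) L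
      have h5 := congrArg (fun Z : Multiset ℕ => (Z.map (fun l => (-(u l)).toNat)).sum) h4
      simp only [Multiset.map_add, Multiset.sum_add] at h5
      rw [← hν, hνσ, h1] at h5
      omega
  have hneg : ∃ l ∈ L, u l < 0 := by
    by_contra hcon
    push Not at hcon
    have h1 : (L.map (fun l => (-(u l)).toNat)).sum = 0 := by
      rw [Multiset.sum_eq_zero_iff]
      intro x hx
      obtain ⟨l, hl, rfl⟩ := Multiset.mem_map.mp hx
      have := hcon l hl
      omega
    omega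
  obtain ⟨l1, hl1, hul1⟩ := hneg
  refine ⟨?_, ?_⟩
  · -- `-s' ∈ H`
    have hs'H : InH p r (-(s' : ZMod r)) := by
      have e1 : (((u l1).natAbs : ℕ) : ZMod r) = -(p : ZMod r) ^ (e + l1) := by
        have h1 : (((u l1).natAbs : ℕ) : ℤ) = -(u l1) := by omega
        have h2 := congrArg (fun z : ℤ => (z : ZMod r)) h1
        simp only [Int.cast_natCast, Int.cast_neg] at h2
        rw [h2, hcong]
      obtain ⟨g1, hg1⟩ := hVg _ (Multiset.mem_map_of_mem _ hl1)
      rcases hg1 with hg1 | hg1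
      · have hm1 : InH p r (-1) := by
          apply InH.cancel hpr hr0 (g := g1)
          refine ⟨e + l1, ?_⟩
          rw [hg1] at e1
          push_cast at e1
          rw [e1]
          ring
        obtain ⟨l2, hl2, hlv2⟩ := Multiset.mem_map.mp hv2V
        rcases lt_or_ge (u l2) 0 with h0 | h0
        · apply InH.cancel hpr hr0 (g := g2)
          refine ⟨e + l2, ?_⟩
          have h1 : (((u l2).natAbs : ℕ) : ℤ) = -(u l2) := by omega
          have h2 := congrArg (fun z : ℤ => (z : ZMod r)) h1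
          simp only [Int.cast_natCast, Int.cast_neg] at h2
          rw [hcong, hlv2, hvg2] at h2
          push_cast at h2
          rw [mul_neg, h2, neg_neg]
        · have h3 : InH p r (s' : ZMod r) := by
            apply InH.cancel hpr hr0 (g := g2)
            refine ⟨e + l2, ?_⟩
            have h1 : (((u l2).natAbs : ℕ) : ℤ) = (u l2) := by omega
            have h2 := congrArg (fun z : ℤ => (z : ZMod r)) h1
            simp only [Int.cast_natCast] at h2
            rw [hcong, hlv2, hvg2] at h2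
            push_cast at h2
            exact h2
          have := InH.mul hm1 h3
          rwa [neg_one_mul] at this
      · apply InH.cancel hpr hr0 (g := g1)
        refine ⟨e + l1, ?_⟩
        rw [hg1] at e1
        push_cast at e1
        rw [mul_neg, e1, neg_neg]
    have hmH : InH p r (m : ZMod r) := by
      have h1 : (m : ZMod r) = (p : ZMod r) ^ h' * (-(s' : ZMod r)) := by
        have h2 : ((m + σ : ℕ) : ZMod r) = ((r * (m / r + 1) : ℕ) : ZMod r) := by rw [hmσ]
        rw [hs'] at h2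
        push_cast at h2
        rw [ZMod.natCast_self, zero_mul] at h2
        linear_combination h2
      rw [h1]
      exact InH.mul ⟨h', rfl⟩ hs'H
    obtain ⟨j, hj⟩ := hmH
    refine ⟨j, ?_⟩
    rw [← ZMod.natCast_eq_natCast_iff]
    push_cast
    exact hj
  · obtain ⟨l0, hl0, hu0, g, hg⟩ := hex
    have hl0N : p ^ l0 ≤ N := by
      by_contra h0
      exact hLc l0 hl0 (c_zero_of_lt p (by omega))
    have hub := hcoef _ hl0N (hLc l0 hl0)
    have hu' : u l0 = (β (p ^ l0) : ℤ) - σ := by rw [hu]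
    have hβg : β (p ^ l0) = p ^ g + σ := by omega
    have hgκ : p ^ g ≤ κ := by omega
    have hpos : 0 < p ^ l0 := Nat.pow_pos (by omega)
    have hlt : p ^ g < p ^ (e + l0) := by
      rw [pow_add]
      nlinarith
    refine ⟨e + l0, g, (Nat.pow_lt_pow_iff_right hp1).mp hlt, ?_, ?_⟩
    · have h1 := hβmod (p ^ l0)
      rw [hβg, ← pow_add] at h1
      exact (Nat.ModEq.add_right_cancel' _ h1).symm
    · have hl10 : l1 ≠ l0 := by
        rintro rfl
        omega
      obtain ⟨L', rfl⟩ := Multiset.exists_cons_of_mem hl0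
      have hl1' : l1 ∈ L' := (Multiset.mem_cons.mp hl1).resolve_left hl10
      have h1 : p ^ l1 ≤ (L'.map (fun l => p ^ l)).sum :=
        Multiset.single_le_sum (fun _ _ => Nat.zero_le _) _ (Multiset.mem_map_of_mem _ hl1')
      have h1' : 0 < p ^ l1 := Nat.pow_pos (by omega)
      simp only [Multiset.map_cons, Multiset.sum_cons] at hLs
      have h2 : p ^ l0 + 1 ≤ N := by omega
      have h3 : p ^ e * (p ^ l0 + 1) ≤ m + κ := by
        rw [← hN]
        exact Nat.mul_le_mul_left _ h2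
      rw [pow_add]
      rw [mul_add, mul_one] at h3
      omega

end Pool.Agent.Helper49.Agr
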