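import Pool.Agent.Helper49.Agr.Defs

/-!
AGR SUPP.  If `(X-1)^m ≡ X^m - 1 mod (p, X^r - 1)`, `p ∤ r`, `k = m / r`, then all exponents of
`(X-1)^(m+k)` are congruent mod `r` to an element of `[0,k]` or of `m + [0,k]`.

PROOF.  Let `M = m + k`, `s = m % r`, `F = ZMod p`, `R = F[X]`, and work in `R[Y]` (`Polynomial R`) modulo
`Y^r - 1`.  `X` denotes the variable of `F`, as a constant `C X : R[Y]`.  In `R[Y]`:
`C X * Y - 1 = (Y - 1) + C (X - 1) * Y`, so by `add_pow`
`(C X * Y - 1)^M = ∑_{i ≤ M} C(M,i) (C (X-1) * Y)^i (Y - 1)^(M-i)`.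
(1) For `i ≤ k`: `(Y-1)^(M-i) = (Y-1)^(k-i) (Y-1)^m ≡ (Y-1)^(k-i) (Y^m - 1)` mod `Y^r - 1` (map the
    hypothesis `h` to `R[Y]` by `Polynomial.mapRingHom C`).  The polynomial
    `Y^i (Y-1)^(k-i) (Y^m - 1)` is a combination of `Y^b` with `b ∈ [0,k] ∪ (m + [0,k])`.
(2) Let `0 ≤ a < r` be a residue not congruent to any `b` or `m + b`, `b ≤ k`.  Take the coefficient at
    `Y^a` of `fold r 1 0` (`Defs.lean`) of both sides (`fold` kills multiples of `Y^r - 1`):
    the left side is `G_a := ∑_{i ≤ M, i ≡ a} c p M i X^i ∈ R` (`(C X * Y - 1)^M` has the coefficient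
    `c p M i * X^i` at `Y^i`: it is `(Y-1)^M` composed with `C X * Y`, or use `Polynomial.scaleRoots`,
    or `Polynomial.coeff` of `add_pow`), the terms `i ≤ k` of the right side give `0` by (1), the terms
    `i > k` are divisible by `(X-1)^(k+1)`.  So `(X-1)^(k+1) ∣ G_a` in `F[X]`.
(3) `G_a = X^a * B(X^r)` with `B = ∑_{t ≤ k} c p M (a + t r) Z^t`, degree `≤ k`: indeed if
    `a + t r ≤ M = k r + s + k` with `t ≥ k+1` then `a + r ≤ s + k`, so `a = (s + b) - r` for some
    `b ≤ k`, excluded.  `(X-1)^(k+1)` is coprime to `X^a`, so it divides `B(X^r) = expand F r B`.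
(4) Lemma: `(X-1)^j ∣ expand F r B → (X-1)^j ∣ B` (`(r : F) ≠ 0`).  Induction on `j`: for `j+1`, `B(1) = 0`
    (evaluate at `1`), `B = (X-1) B₁`, `expand r B = (X^r - 1) expand r B₁ = (X-1) Θ (expand r B₁)`,
    `Θ = ∑_{i<r} X^i`, `Θ(1) = r ≠ 0`, so `(X-1)^j` is coprime to `Θ` and divides `expand r B₁`.
(5) So `(X-1)^(k+1) ∣ B` and `deg B ≤ k`: `B = 0`, i.e. `c p M i = 0` for all `i ≡ a` mod `r`.
    This is the contrapositive of the claim (`a = i % r`).
-/

set_option autoImplicit false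

namespace Pool.Agent.Helper49.Agr

open Polynomial

private lemma fold_coeff_eq_zero {R : Type} [CommRing R] (r a : ℕ) (P : R[X])
    (h : ∀ n, P.coeff n ≠ 0 → n % r ≠ a) : (fold r 1 0 P).coeff a = 0 := by
  unfold fold
  rw [Polynomial.lsum_apply, Polynomial.sum_def, Polynomial.finsetSum_coeff]
  apply Finset.sum_eq_zero
  intro n hn
  rw [Polynomial.coeff_monomial, if_neg]
  rw [one_mul, add_zero]
  exact h n (Polynomial.mem_support_iff.1 hn)

private lemma fold_coeff_sum {R : Type} [CommRing R] (r a M : ℕ) (g : ℕ → R) :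
    (fold r 1 0 (∑ n ∈ Finset.range M, C (g n) * X ^ n : R[X])).coeff a =
      ∑ n ∈ (Finset.range M).filter (fun n => n % r = a), g n := by
  rw [map_sum, Polynomial.finsetSum_coeff, Finset.sum_filter]
  apply Finset.sum_congr rfl
  intro n _
  rw [fold_C_mul_X_pow, Polynomial.coeff_C_mul_X_pow, one_mul, add_zero]
  by_cases h : n % r = a
  · rw [if_pos h.symm, if_pos h]
  · rw [if_neg (fun h' => h h'.symm), if_neg h]

private lemma coprime_X_sub_one {F : Type} [Field F] (j : ℕ) {Θ : F[X]} (hΘ : Θ.eval 1 ≠ 0) :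
    IsCoprime ((X - 1 : F[X]) ^ j) Θ := by
  apply IsCoprime.pow_left
  have h1 : (X - 1 : F[X]) = X - C 1 := by simp
  rw [h1, (irreducible_X_sub_C (1 : F)).coprime_iff_not_dvd, dvd_iff_isRoot]
  exact hΘ

private lemma dvd_of_dvd_expand {F : Type} [Field F] (r : ℕ) (hr : (r : F) ≠ 0) (j : ℕ) :
    ∀ B : F[X], (X - 1 : F[X]) ^ j ∣ expand F r B → (X - 1 : F[X]) ^ j ∣ B := by
  induction j with
  | zero => intro B _; rw [pow_zero]; exact one_dvd _
  | succ j ih =>
    intro B hB
    have hX1 : (X - 1 : F[X]) = X - C 1 := by simp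
    have hne : (X - 1 : F[X]) ≠ 0 := by rw [hX1]; exact X_sub_C_ne_zero 1
    have h0 : B.eval 1 = 0 := by
      have h1 : (X - 1 : F[X]) ∣ expand F r B := (dvd_pow_self _ (Nat.succ_ne_zero j)).trans hB
      rw [hX1, dvd_iff_isRoot, IsRoot.def, expand_eval, one_pow] at h1
      exact h1
    obtain ⟨B₁, hB₁⟩ : (X - 1 : F[X]) ∣ B := by
      rw [hX1, dvd_iff_isRoot]
      exact h0
    have h2 : expand F r B = (X - 1) * ((∑ i ∈ Finset.range r, X ^ i) * expand F r B₁) := by
      rw [hB₁, map_mul, map_sub, expand_X, map_one, ← mul_assoc, mul_comm (X - 1) (∑ i ∈ _, _),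
        geom_sum_mul]
    rw [h2, pow_succ', mul_dvd_mul_iff_left hne] at hB
    have h3 : (X - 1 : F[X]) ^ j ∣ expand F r B₁ := by
      refine (coprime_X_sub_one j ?_).dvd_of_dvd_mul_left hB
      rw [eval_finsetSum]
      simpa using hr
    rw [hB₁, pow_succ']
    exact mul_dvd_mul_left _ (ih B₁ h3)

private lemma index_bound {r m i : ℕ} (hr : 0 < r)
    (hex : ∀ b ≤ m / r, ¬ (i ≡ b [MOD r] ∨ i ≡ m + b [MOD r])) (hi : i ≤ m + m / r) :
    i / r ≤ m / r := by
  by_contra hcon
  push Not at hcon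
  have h1 := Nat.div_add_mod m r
  have h2 := Nat.div_add_mod i r
  have h3 := Nat.mod_lt m hr
  have h4 := Nat.mod_lt i hr
  set k := m / r
  set s := m % r
  set a := i % r
  set t := i / r
  have h5 : r * (k + 1) ≤ r * t := Nat.mul_le_mul_left r hcon
  have h6 : r * (k + 1) = r * k + r := by ring
  have hb : a + r - s ≤ k := by omega
  refine hex _ hb (Or.inr ?_)
  have h7 : m + (a + r - s) = r * (k + 1) + a := by
    rw [← h1]
    omega
  rw [h7]
  have h8 : i ≡ a [MOD r] := (Nat.mod_modEq i r).symm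
  refine h8.trans ?_
  unfold Nat.ModEq
  rw [Nat.mul_add_mod]

private lemma low_term (p : ℕ) [Fact p.Prime] (r m a : ℕ) (h : Loc p r m)
    (hex : ∀ b ≤ m / r, b % r ≠ a ∧ (m + b) % r ≠ a) (j : ℕ) (hj : j ≤ m / r) :
    (fold r 1 0 ((X : (ZMod p)[X][X]) ^ j * (X - 1) ^ (m + m / r - j))).coeff a = 0 := by
  set Q : (ZMod p)[X][X] := X ^ j * (X - 1) ^ (m / r - j) with hQ
  have hQdeg : Q.natDegree ≤ m / r := by
    have h1 : (X - 1 : (ZMod p)[X][X]).natDegree ≤ 1 := by
      have : (X - 1 : (ZMod p)[X][X]) = X - C 1 := by simp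
      rw [this]
      exact natDegree_X_sub_C_le 1
    have h2 : ((X - 1 : (ZMod p)[X][X]) ^ (m / r - j)).natDegree ≤ m / r - j := by
      refine natDegree_pow_le.trans ?_
      nlinarith
    have h3 : (X ^ j : (ZMod p)[X][X]).natDegree ≤ j := natDegree_X_pow_le j
    refine natDegree_mul_le.trans ?_
    omega
  have hmap : (X ^ r - 1 : (ZMod p)[X][X]) ∣ (X - 1) ^ m - (X ^ m - 1) := by
    have h1 := map_dvd (mapRingHom (C : ZMod p →+* (ZMod p)[X])) h
    simpa using h1
  have hcongr : fold r 1 0 ((X : (ZMod p)[X][X]) ^ j * (X - 1) ^ (m + m / r - j)) =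
      fold r 1 0 (Q * X ^ m - Q) := by
    apply fold_congr
    have h2 : (X : (ZMod p)[X][X]) ^ j * (X - 1) ^ (m + m / r - j) - (Q * X ^ m - Q) =
        Q * ((X - 1) ^ m - (X ^ m - 1)) := by
      have h3 : m + m / r - j = (m / r - j) + m := by omega
      rw [h3, pow_add, hQ]
      ring
    rw [h2]
    exact Dvd.dvd.mul_left hmap _
  rw [hcongr, map_sub, coeff_sub]
  have e1 : (fold r 1 0 (Q * X ^ m)).coeff a = 0 := by
    apply fold_coeff_eq_zero
    intro n hn
    rw [coeff_mul_X_pow'] at hn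
    split_ifs at hn with hmn
    · have h4 : n - m ≤ m / r := (le_natDegree_of_ne_zero hn).trans hQdeg
      have h5 := (hex (n - m) h4).2
      have h6 : m + (n - m) = n := by omega
      rwa [h6] at h5
    · exact absurd rfl hn
  have e2 : (fold r 1 0 Q).coeff a = 0 := by
    apply fold_coeff_eq_zero
    intro n hn
    exact (hex n ((le_natDegree_of_ne_zero hn).trans hQdeg)).1
  rw [e1, e2, sub_zero]

private lemma fold_C_mul {R : Type} [CommRing R] (r a : ℕ) (g : R) (P : R[X]) :
    (fold r 1 0 (C g * P)).coeff a = g * (fold r 1 0 P).coeff a := by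
  rw [← smul_eq_C_mul, map_smul, coeff_smul, smul_eq_mul]

private lemma Ga_dvd (p : ℕ) [Fact p.Prime] (r m a : ℕ) (h : Loc p r m)
    (hex : ∀ b ≤ m / r, b % r ≠ a ∧ (m + b) % r ≠ a) :
    (X - 1 : (ZMod p)[X]) ^ (m / r + 1) ∣
      ∑ n ∈ (Finset.range (m + m / r + 1)).filter (fun n => n % r = a),
        C (c p (m + m / r) n) * X ^ n := by
  set M := m + m / r with hM
  have hL : ((C X * X - 1 : (ZMod p)[X][X]) ^ M) =
      ∑ n ∈ Finset.range (M + 1), C (C (c p M n) * X ^ n) * X ^ n := by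
    have h1 := congrArg (aeval (C X * X : (ZMod p)[X][X])) (pow_eq_sum p M)
    rw [map_pow, map_sub, aeval_X, map_one, map_sum] at h1
    rw [h1]
    apply Finset.sum_congr rfl
    intro n _
    rw [map_mul, map_pow, aeval_X, aeval_C, mul_pow, C_mul, C_pow, mul_assoc]
    rfl
  have hR : ((C X * X - 1 : (ZMod p)[X][X]) ^ M) =
      ∑ j ∈ Finset.range (M + 1), C ((X - 1 : (ZMod p)[X]) ^ j * (M.choose j : (ZMod p)[X])) *
        (X ^ j * (X - 1) ^ (M - j)) := by
    have h1 : (C X * X - 1 : (ZMod p)[X][X]) = C (X - 1) * X + (X - 1) := by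
      rw [C_sub, C_1]; ring
    rw [h1, add_pow]
    apply Finset.sum_congr rfl
    intro j _
    rw [mul_pow, C_mul, C_pow, map_natCast]
    ring
  have h2 : (fold r 1 0 ((C X * X - 1 : (ZMod p)[X][X]) ^ M)).coeff a =
      ∑ n ∈ (Finset.range (M + 1)).filter (fun n => n % r = a), C (c p M n) * X ^ n := by
    rw [hL, fold_coeff_sum]
  rw [← h2, hR, map_sum, finsetSum_coeff]
  apply Finset.dvd_sum
  intro j _
  rw [fold_C_mul]
  by_cases hj : j ≤ m / r
  · rw [low_term p r m a h hex j hj, mul_zero]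
    exact dvd_zero _
  · push Not at hj
    exact Dvd.dvd.mul_right (Dvd.dvd.mul_right (pow_dvd_pow _ hj) _) _

theorem supp (p : ℕ) [Fact p.Prime] (r m : ℕ) (hr : 0 < r) (hpr : Nat.Coprime p r)
    (h : Loc p r m) (i : ℕ) (hi : c p (m + m / r) i ≠ 0) :
    ∃ b ≤ m / r, i ≡ b [MOD r] ∨ i ≡ m + b [MOD r] := by
  by_contra hcon
  push Not at hcon
  have hcon' : ∀ b ≤ m / r, ¬ (i ≡ b [MOD r] ∨ i ≡ m + b [MOD r]) := by
    intro b hb hor
    rcases hor with h1 | h1
    · exact (hcon b hb).1 h1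
    · exact (hcon b hb).2 h1
  set k := m / r with hk
  set a := i % r with ha
  set M := m + k with hM
  have har : a < r := Nat.mod_lt i hr
  have hex : ∀ b ≤ m / r, b % r ≠ a ∧ (m + b) % r ≠ a := by
    intro b hb
    constructor
    · intro h1
      exact hcon' b hb (Or.inl h1.symm)
    · intro h1
      exact hcon' b hb (Or.inr h1.symm)
  have hiM : i ≤ M := by
    by_contra hc
    push Not at hc
    exact hi (c_zero_of_lt p hc)
  have hGa := Ga_dvd p r m a h hex
  rw [← hk, ← hM] at hGa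
  set g : ℕ → (ZMod p)[X] := fun n => C (c p M n) * X ^ n with hg
  have hsum : ∑ n ∈ (Finset.range (M + 1)).filter (fun n => n % r = a), g n =
      ∑ t ∈ Finset.range (k + 1), g (a + t * r) := by
    rw [← Finset.sum_image (s := Finset.range (k + 1)) (g := fun t => a + t * r) (f := g)]
    · apply Finset.sum_subset
      · intro n hn
        rw [Finset.mem_filter, Finset.mem_range] at hn
        have hn1 : n ≤ m + m / r := by omega
        have hn2 : ∀ b ≤ m / r, ¬ (n ≡ b [MOD r] ∨ n ≡ m + b [MOD r]) := by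
          intro b hb hor
          have h5 := hex b hb
          rcases hor with h6 | h6
          · exact h5.1 (h6.symm.trans hn.2)
          · exact h5.2 (h6.symm.trans hn.2)
        have hn3 := index_bound hr hn2 hn1
        rw [Finset.mem_image]
        refine ⟨n / r, Finset.mem_range.2 (by omega), ?_⟩
        have := Nat.div_add_mod n r
        rw [hn.2] at this
        rw [mul_comm (n / r) r]
        omega
      · intro n hn hn'
        rw [Finset.mem_image] at hn
        obtain ⟨t, _, rfl⟩ := hn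
        rw [Finset.mem_filter, Finset.mem_range, not_and_or] at hn'
        have hmod : (a + t * r) % r = a := by
          rw [Nat.add_mul_mod_self_right, Nat.mod_eq_of_lt har]
        have hlt : M < a + t * r := by
          rcases hn' with h1 | h1
          · omega
          · exact absurd hmod h1
        simp only [hg]
        rw [c_zero_of_lt p hlt, C_0, zero_mul]
    · intro t _ t' _ htt
      have htt : a + t * r = a + t' * r := htt
      have : t * r = t' * r := by omega
      exact Nat.eq_of_mul_eq_mul_right hr this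
  set B : (ZMod p)[X] := ∑ t ∈ Finset.range (k + 1), C (c p M (a + t * r)) * X ^ t with hB
  have hexp : ∑ t ∈ Finset.range (k + 1), g (a + t * r) = X ^ a * expand (ZMod p) r B := by
    rw [hB, map_sum, Finset.mul_sum]
    apply Finset.sum_congr rfl
    intro t _
    simp only [hg]
    rw [map_mul, expand_C, map_pow, expand_X, ← pow_mul, pow_add, mul_comm r t]
    ring
  have hGa' : (X - 1 : (ZMod p)[X]) ^ (k + 1) ∣ X ^ a * expand (ZMod p) r B := by
    rw [← hexp, ← hsum]
    exact hGa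
  have hrF : (r : ZMod p) ≠ 0 := by
    rw [Ne, ZMod.natCast_eq_zero_iff]
    intro hd
    have h1 : p ∣ Nat.gcd p r := Nat.dvd_gcd dvd_rfl hd
    rw [hpr] at h1
    exact (Fact.out : p.Prime).one_lt.ne' (Nat.dvd_one.1 h1)
  have h6 : (X - 1 : (ZMod p)[X]) ^ (k + 1) ∣ expand (ZMod p) r B := by
    refine (coprime_X_sub_one (k + 1) ?_).dvd_of_dvd_mul_left hGa'
    simp
  have h7 := dvd_of_dvd_expand r hrF (k + 1) B h6
  have hBdeg : B.natDegree ≤ k := by
    rw [hB]
    apply natDegree_sum_le_of_forall_le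
    intro t ht
    refine (natDegree_C_mul_X_pow_le _ _).trans ?_
    rw [Finset.mem_range] at ht
    omega
  have hB0 : B = 0 := by
    apply eq_zero_of_dvd_of_natDegree_lt h7
    have hX1 : (X - 1 : (ZMod p)[X]) = X - C 1 := by simp
    rw [hX1, natDegree_pow, natDegree_X_sub_C]
    omega
  have hik := index_bound hr hcon' hiM
  have hcoef : B.coeff (i / r) = c p M (a + i / r * r) := by
    rw [hB, finsetSum_coeff, Finset.sum_eq_single (i / r)]
    · rw [coeff_C_mul_X_pow, if_pos rfl]
    · intro t _ ht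
      rw [coeff_C_mul_X_pow, if_neg (fun h => ht h.symm)]
    · intro hn
      exact absurd (Finset.mem_range.2 (by omega)) hn
  rw [hB0, coeff_zero] at hcoef
  have hi2 : a + i / r * r = i := by
    have := Nat.mod_add_div i r
    rw [mul_comm (i / r) r]
    exact this
  rw [hi2] at hcoef
  exact hi hcoef.symm

end Pool.Agent.Helper49.Agr
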