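import Pool.Agent.Helper49.Agr.LemT
import Pool.Agent.Helper49.Agr.LemW
import Pool.Agent.Helper49.Agr.Supp

/-!
AGR CASE3.  `k = m / r`, `s = m % r`, `2 (s + k) < r`.

PROOF.  `s ≥ 1` (`gcd(m,r) = 1`, `r > 1`).  Let `M = m + k`.  By `supp`, `c_M(i) ≠ 0` implies
`i % r ≤ s + k` (`i ≡ b` or `i ≡ m + b ≡ s + b`, `b ≤ k`, `s + k < r`).  So if
`c_M(i), c_M(j), c_M(i+j) ≠ 0` then `(i+j) % r = i % r + j % r` (the right side is `≤ 2(s+k) < r`).
`lemT` (`B = (ZMod p)[X]`, `x i = X^(i % r)`): `∑ c_M(i) X^(i % r) = ∏_{l ∈ L} (X^(p^l % r) - 1)`,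
`∑_{l ∈ L} p^l = M`.  The left side is `fold r 1 0 ((X-1)^M)`, and `(X-1)^M = (X-1)^k (X-1)^m ≡
(X-1)^k (X^m - 1) ≡ (X-1)^k (X^s - 1)` mod `X^r - 1`; the last one has degree `s + k < r` so it is its own
folding.  Hence `∏_{l ∈ L} (X^{v_l} - 1) = (X-1)^k (X^s - 1)`, `v_l = p^l % r`.
`lemW`: `∑ v_l = k + s`, `s = p^h s'`, `p ∤ s'`, each `v_l` is `p^g` or `p^g s'`, some `v_l = p^g s'`, and if
`s' ≠ 1` then the `v_l` which are powers of `p` (equivalently: not divisible by `s'`) have sum `k`.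
* `m ≡ s = p^h s'`, and `p^l ≡ v_l = p^g s'` for some `l`, so `s'` and `m` are `≡` powers of `p` (the powers
  of `p` form a group mod `r`: multiply by `p^(φ(r) g - g)`).
* There is `l₀ ∈ L` with `v_{l₀} = p^g ≠ p^{l₀}`.  Suppose not.
  If `s' = 1`: all `v_l = p^l`, so `k + s = ∑ v_l = ∑ p^l = M = m + k`, `m = s = p^h`; `p ∤ m` gives `h = 0`,
  `m = 1`, contradiction to `m ≥ 2`.
  If `s' ≠ 1`: `k = ∑_{v_l power of p} v_l = ∑_{v_l power of p} p^l`, so
  `m = M - k = ∑_{v_l not a power of p} p^l`; `p ∤ m`, so some `l` with `v_l` not a power of `p` has `l = 0`,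
  but `v_0 = 1 % r = 1 = p^0`, contradiction.
  Since `v_{l₀} = p^{l₀} % r ≠ p^{l₀}` we have `p^g = v_{l₀} < p^{l₀}`, so `g < l₀`; `a := l₀`, `b := g`,
  `p^a ≡ p^b`.  As `v_l ≤ p^l` for all `l`: `m - s = M - (k+s) = ∑ (p^l - v_l) ≥ p^{l₀} - p^g`, so
  `p^a + 1 ≤ p^a + s ≤ m + p^b`.
-/

set_option autoImplicit false

namespace Pool.Agent.Helper49.Agr

open Polynomial

/-- a polynomial of degree `< r` is its own folding -/
private lemma fold_self' {R : Type} [CommRing R] {r : ℕ} (G : R[X]) (hG : G.natDegree < r) :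
    fold r 1 0 G = G := by
  conv_lhs => rw [as_sum_range' G r hG]
  conv_rhs => rw [as_sum_range' G r hG]
  rw [map_sum]
  refine Finset.sum_congr rfl fun i hi => ?_
  rw [fold_monomial, one_mul, add_zero, Nat.mod_eq_of_lt (Finset.mem_range.mp hi)]

/-- the residues which are `≡ p^j * s'` with `s'` a quotient of powers of `p` -/
private lemma powres {p r m h s' l g : ℕ} (hpr : Nat.Coprime p r) (hr : 0 < r)
    (h1 : m ≡ p ^ h * s' [MOD r]) (h2 : p ^ l ≡ p ^ g * s' [MOD r]) :
    ∃ j, m ≡ p ^ j [MOD r] := by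
  have hφ : 0 < Nat.totient r := Nat.totient_pos.mpr hr
  have hφ1 : p ^ Nat.totient r ≡ 1 [MOD r] := Nat.ModEq.pow_totient hpr
  have h3 : (p ^ Nat.totient r) ^ g ≡ 1 [MOD r] := by
    simpa using hφ1.pow g
  refine ⟨h + (Nat.totient r - 1) * g + l, ?_⟩
  have h4 : p ^ (h + (Nat.totient r - 1) * g + l) = p ^ h * p ^ ((Nat.totient r - 1) * g) * p ^ l := by
    rw [pow_add, pow_add]
  have h5 : p ^ ((Nat.totient r - 1) * g) * p ^ g = (p ^ Nat.totient r) ^ g := by
    rw [← pow_add, ← pow_mul]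
    congr 1
    obtain ⟨t, ht⟩ : ∃ t, Nat.totient r = t + 1 := ⟨Nat.totient r - 1, by omega⟩
    rw [ht]
    simp
    ring
  calc m ≡ p ^ h * s' [MOD r] := h1
    _ = 1 * (p ^ h * s') := by ring
    _ ≡ (p ^ Nat.totient r) ^ g * (p ^ h * s') [MOD r] := (h3.symm).mul_right _
    _ = p ^ h * p ^ ((Nat.totient r - 1) * g) * (p ^ g * s') := by rw [← h5]; ring
    _ ≡ p ^ h * p ^ ((Nat.totient r - 1) * g) * p ^ l [MOD r] := (h2.symm).mul_left _
    _ = p ^ (h + (Nat.totient r - 1) * g + l) := h4.symm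

theorem case3 (p : ℕ) [Fact p.Prime] (r m : ℕ) (hpr : Nat.Coprime p r) (hmr : Nat.Coprime m r)
    (hpm : ¬ p ∣ m) (hm : 2 ≤ m) (hsk : 2 * (m % r + m / r) < r) (h : Loc p r m) :
    Concl p r m := by
  classical
  have hp : p.Prime := Fact.out
  have hp1 : 1 < p := hp.one_lt
  have hr0 : 0 < r := by omega
  have hsupp : ∀ i, c p (m + m / r) i ≠ 0 → i % r ≤ m % r + m / r := by
    intro i hi
    obtain ⟨b, hb, hb'⟩ := supp p r m hr0 hpr h i hi
    rcases hb' with hb' | hb'
    · have h1 : i % r = b % r := hb'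
      rw [h1]
      have := Nat.mod_le b r
      omega
    · have h1 : i % r = (m + b) % r := hb'
      have h2 : (m + b) % r ≤ m % r + b := by
        rw [Nat.add_mod]
        have h3 := Nat.mod_le (m % r + b % r) r
        have h4 := Nat.mod_le b r
        omega
      omega
  have hms : r * (m / r) + m % r = m := Nat.div_add_mod m r
  set k := m / r with hk
  set s := m % r with hs
  have hr1 : r ≠ 1 := by
    rintro rfl
    have : k = m := by rw [hk, Nat.div_one]
    omega
  have hs1 : 1 ≤ s := by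
    by_contra h0
    have h1 : r ∣ m := Nat.dvd_of_mod_eq_zero (by omega)
    have h2 : r ∣ 1 := by
      have := Nat.dvd_gcd h1 (dvd_refl r)
      rwa [hmr] at this
    exact hr1 (Nat.dvd_one.mp h2)
  obtain ⟨L, hLs, hLc, hL⟩ := lemT p (m + k) (B := (ZMod p)[X]) (fun i => X ^ (i % r))
    (by simp) (by
      intro i j hi hj hij
      have h1 := hsupp i hi
      have h2 := hsupp j hj
      have h3 : (i + j) % r = i % r + j % r := by
        rw [Nat.add_mod, Nat.mod_eq_of_lt (by omega)]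
      simp only [h3, pow_add])
  -- the folded identity
  have hfold : ∑ i ∈ Finset.range (m + k + 1), c p (m + k) i • (X ^ (i % r) : (ZMod p)[X]) =
      (X - 1) ^ k * (X ^ s - 1) := by
    have e1 : fold r 1 0 ((X - 1 : (ZMod p)[X]) ^ (m + k)) =
        ∑ i ∈ Finset.range (m + k + 1), c p (m + k) i • (X ^ (i % r) : (ZMod p)[X]) := by
      rw [pow_eq_sum, map_sum]
      refine Finset.sum_congr rfl fun i _ => ?_
      rw [fold_C_mul_X_pow, one_mul, add_zero, smul_eq_C_mul]
    have e2 : (X ^ r - 1 : (ZMod p)[X]) ∣ (X - 1) ^ (m + k) - (X - 1) ^ k * (X ^ s - 1) := by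
      have h1 : (X ^ r - 1 : (ZMod p)[X]) ∣ (X - 1) ^ k * ((X - 1) ^ m - (X ^ m - 1)) :=
        Dvd.dvd.mul_left h _
      have h2 : (X ^ r - 1 : (ZMod p)[X]) ∣ (X - 1) ^ k * (X ^ s * ((X ^ r) ^ k - 1)) := by
        refine Dvd.dvd.mul_left (Dvd.dvd.mul_left ?_ _) _
        simpa using sub_dvd_pow_sub_pow (X ^ r : (ZMod p)[X]) 1 k
      have h3 : ((X - 1) ^ (m + k) - (X - 1) ^ k * (X ^ s - 1) : (ZMod p)[X]) =
          (X - 1) ^ k * ((X - 1) ^ m - (X ^ m - 1)) + (X - 1) ^ k * (X ^ s * ((X ^ r) ^ k - 1)) := by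
        have h4 : (X ^ m : (ZMod p)[X]) = X ^ s * (X ^ r) ^ k := by
          rw [← pow_mul, ← pow_add]
          congr 1
          omega
        rw [h4, pow_add]
        ring
      rw [h3]
      exact dvd_add h1 h2
    rw [← e1, fold_congr e2]
    apply fold_self'
    have hd1 : (X - 1 : (ZMod p)[X]).natDegree ≤ 1 := by
      have : (X - 1 : (ZMod p)[X]) = X - C 1 := by simp
      rw [this]
      exact natDegree_X_sub_C_le 1
    have hd2 : ((X - 1 : (ZMod p)[X]) ^ k).natDegree ≤ k := by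
      refine natDegree_pow_le.trans ?_
      nlinarith
    have hd3 : (X ^ s - 1 : (ZMod p)[X]).natDegree ≤ s := by
      refine (natDegree_sub_le _ _).trans ?_
      simp
    have := natDegree_mul_le (p := (X - 1 : (ZMod p)[X]) ^ k) (q := (X ^ s - 1 : (ZMod p)[X]))
    omega
  have hW : ((L.map (fun l => p ^ l % r)).map (fun v => (X ^ v - 1 : (ZMod p)[X]))).prod =
      (X - 1) ^ k * (X ^ s - 1) := by
    rw [Multiset.map_map, ← hfold, hL]
    rfl
  obtain ⟨hVsum, h', s', hs', hps', hVg, ⟨v, hvV, g1, hvg1⟩, hfil⟩ :=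
    lemW p (L.map (fun l => p ^ l % r)) k s hs1 hW
  have hmmod : m ≡ s [MOD r] := (Nat.mod_modEq m r).symm
  refine ⟨?_, ?_⟩
  · obtain ⟨l, hlL, hlv⟩ := Multiset.mem_map.mp hvV
    refine powres (h := h') (s' := s') (l := l) (g := g1) hpr hr0 ?_ ?_
    · rw [← hs']; exact hmmod
    · rw [← hvg1, ← hlv]
      exact (Nat.mod_modEq _ _).symm
  · -- existence of `l₀`
    have hex : ∃ l ∈ L, ∃ g, p ^ l % r = p ^ g ∧ p ^ l % r ≠ p ^ l := by
      by_contra hcon
      push Not at hcon
      by_cases hs'1 : s' = 1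
      · have h1 : ∀ l ∈ L, p ^ l % r = p ^ l := by
          intro l hl
          obtain ⟨g, hg⟩ := hVg _ (Multiset.mem_map_of_mem _ hl)
          rw [hs'1, mul_one, or_self] at hg
          exact hcon l hl g hg
        have h2 : L.map (fun l => p ^ l % r) = L.map (fun l => p ^ l) :=
          Multiset.map_congr rfl h1
        rw [h2, hLs] at hVsum
        have h3 : m = p ^ h' := by rw [hs'1, mul_one] at hs'; omega
        have h4 : h' = 0 := by
          by_contra h0
          exact hpm (h3 ▸ dvd_pow_self p h0)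
        rw [h4, pow_zero] at h3
        omega
      · have h1 := hfil hs'1
        rw [Multiset.filter_map] at h1
        have h2 : (L.filter ((fun v => ¬ s' ∣ v) ∘ fun l => p ^ l % r)).map (fun l => p ^ l % r) =
            (L.filter ((fun v => ¬ s' ∣ v) ∘ fun l => p ^ l % r)).map (fun l => p ^ l) := by
          refine Multiset.map_congr rfl fun l hl => ?_
          obtain ⟨hlL, hl'⟩ := Multiset.mem_filter.mp hl
          obtain ⟨g, hg⟩ := hVg _ (Multiset.mem_map_of_mem _ hlL)
          rcases hg with hg | hg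
          · exact hcon l hlL g hg
          · exact absurd (by
              have : s' ∣ p ^ g * s' := Dvd.intro_left _ rfl
              rwa [← hg] at this) hl'
        rw [h2] at h1
        have h3 : ((L.filter (fun l => ¬ ((fun v => ¬ s' ∣ v) ∘ fun l => p ^ l % r) l)).map
            (fun l => p ^ l)).sum = m := by
          have h4 := Multiset.filter_add_not ((fun v => ¬ s' ∣ v) ∘ fun l => p ^ l % r) L
          have h5 := congrArg (fun Z : Multiset ℕ => (Z.map (fun l => p ^ l)).sum) h4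
          simp only [Multiset.map_add, Multiset.sum_add] at h5
          rw [hLs, h1] at h5
          omega
        apply hpm
        rw [← h3]
        refine Multiset.dvd_sum fun x hx => ?_
        obtain ⟨l, hl, rfl⟩ := Multiset.mem_map.mp hx
        obtain ⟨hlL, hl'⟩ := Multiset.mem_filter.mp hl
        simp only [Function.comp_apply, not_not] at hl'
        have hl0 : l ≠ 0 := by
          rintro rfl
          rw [pow_zero, Nat.mod_eq_of_lt (by omega)] at hl'
          exact hs'1 (Nat.dvd_one.mp hl')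
        exact dvd_pow_self p hl0
    obtain ⟨l0, hl0, g, hg, hne⟩ := hex
    have hlt : p ^ g < p ^ l0 := by
      rw [← hg]
      exact lt_of_le_of_ne (Nat.mod_le _ _) hne
    refine ⟨l0, g, (Nat.pow_lt_pow_iff_right hp1).mp hlt, ?_, ?_⟩
    · rw [← hg]
      exact (Nat.mod_modEq _ _).symm
    · obtain ⟨L', rfl⟩ := Multiset.exists_cons_of_mem hl0
      have h1 : ((L'.map (fun l => p ^ l % r)).sum) ≤ ((L'.map (fun l => p ^ l)).sum) :=
        Multiset.sum_map_le_sum_map _ _ fun l _ => Nat.mod_le _ _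
      simp only [Multiset.map_cons, Multiset.sum_cons] at hLs hVsum
      omega

end Pool.Agent.Helper49.Agr
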