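import Mathlib

/-!
AGR = MP_2867b3_nt (Agrawal's conjecture): definitions and the folding map.
-/

set_option autoImplicit false

namespace Pool.Agent.Helper49.Agr

open Polynomial

/-- the coefficient of `X^i` in `(X-1)^M` over `ZMod p` -/
noncomputable def c (p M i : ℕ) : ZMod p := ((X - 1 : (ZMod p)[X]) ^ M).coeff i

lemma c_eq (p M i : ℕ) : c p M i = (-1) ^ (M - i) * (M.choose i : ZMod p) := by
  unfold c
  have : (X - 1 : (ZMod p)[X]) = X + C (-1) := by simp [sub_eq_add_neg]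
  rw [this, coeff_X_add_C_pow]

lemma c_ne_iff (p M i : ℕ) : c p M i ≠ 0 ↔ (M.choose i : ZMod p) ≠ 0 := by
  rw [c_eq]
  constructor
  · intro h h0
    exact h (by rw [h0, mul_zero])
  · intro h h0
    apply h
    have h1 : ((-1 : ZMod p) ^ (M - i)) * (-1) ^ (M - i) = 1 := by
      rw [← mul_pow]; simp
    calc (M.choose i : ZMod p) = ((-1 : ZMod p) ^ (M - i)) * (-1) ^ (M - i) * M.choose i := by
          rw [h1, one_mul]
      _ = 0 := by rw [mul_assoc, h0, mul_zero]

lemma c_zero_of_lt (p : ℕ) {M i : ℕ} (h : M < i) : c p M i = 0 := by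
  rw [c_eq, Nat.choose_eq_zero_of_lt h, Nat.cast_zero, mul_zero]

/-- `(X-1)^M` as a sum. -/
lemma pow_eq_sum (p M : ℕ) : ((X - 1 : (ZMod p)[X]) ^ M) =
    ∑ i ∈ Finset.range (M + 1), C (c p M i) * X ^ i := by
  have hd : ((X - 1 : (ZMod p)[X]) ^ M).natDegree < M + 1 := by
    refine Nat.lt_succ_of_le (natDegree_pow_le.trans ?_)
    have : (X - 1 : (ZMod p)[X]).natDegree ≤ 1 := by
      have : (X - 1 : (ZMod p)[X]) = X - C 1 := by simp
      rw [this]
      exact natDegree_X_sub_C_le 1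
    nlinarith
  conv_lhs => rw [as_sum_range' _ _ hd]
  refine Finset.sum_congr rfl fun i _ => ?_
  rw [← C_mul_X_pow_eq_monomial]
  rfl

section Fold

variable {R : Type} [CommRing R]

/-- The linear map `X^i ↦ X^((u*i+v) % r)`. -/
noncomputable def fold (r u v : ℕ) : R[X] →ₗ[R] R[X] :=
  Polynomial.lsum (fun i => Polynomial.monomial ((u * i + v) % r))

@[simp] lemma fold_monomial (r u v i : ℕ) (a : R) :
    fold r u v (monomial i a) = monomial ((u * i + v) % r) a := by
  unfold fold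
  rw [Polynomial.lsum_apply, Polynomial.sum_monomial_index]
  simp

lemma fold_C_mul_X_pow (r u v i : ℕ) (a : R) :
    fold r u v (C a * X ^ i) = C a * X ^ ((u * i + v) % r) := by
  rw [C_mul_X_pow_eq_monomial, fold_monomial, C_mul_X_pow_eq_monomial]

lemma fold_X_pow (r u v i : ℕ) :
    fold r u v (X ^ i : R[X]) = X ^ ((u * i + v) % r) := by
  have := fold_C_mul_X_pow (R := R) r u v i 1
  simpa using this

lemma fold_X_pow_mul (r u v : ℕ) (F : R[X]) : fold r u v (X ^ r * F) = fold r u v F := by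
  induction F using Polynomial.induction_on' with
  | add f g hf hg => rw [mul_add, map_add, map_add, hf, hg]
  | monomial i a =>
    rw [← C_mul_X_pow_eq_monomial]
    have : (X ^ r * (C a * X ^ i) : R[X]) = C a * X ^ (r + i) := by
      rw [pow_add]; ring
    rw [this, fold_C_mul_X_pow, fold_C_mul_X_pow]
    congr 2
    rw [mul_add, add_assoc, mul_comm u r, Nat.mul_add_mod]

lemma fold_eq_zero {r u v : ℕ} {F : R[X]} (h : (X ^ r - 1 : R[X]) ∣ F) : fold r u v F = 0 := by
  obtain ⟨G, rfl⟩ := h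
  rw [sub_mul, one_mul, map_sub, fold_X_pow_mul, sub_self]

/-- congruent polynomials have the same folding -/
lemma fold_congr {r u v : ℕ} {F G : R[X]} (h : (X ^ r - 1 : R[X]) ∣ F - G) :
    fold r u v F = fold r u v G := by
  have := fold_eq_zero (u := u) (v := v) h
  rw [map_sub] at this
  exact sub_eq_zero.mp this

end Fold

/-- the local congruence -/
def Loc (p r m : ℕ) : Prop := (X ^ r - 1 : (ZMod p)[X]) ∣ (X - 1) ^ m - (X ^ m - 1)

/-- the conclusion of the local theorem -/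
def Concl (p r m : ℕ) : Prop :=
  (∃ j, m ≡ p ^ j [MOD r]) ∧ ∃ a b, b < a ∧ p ^ a ≡ p ^ b [MOD r] ∧ p ^ a + 1 ≤ m + p ^ b

/-- `(X^P - 1)^N ≡ (X-1)^κ (X^m - 1)` when `P N = m + κ` -/
lemma key {p r m e N κ : ℕ} [Fact p.Prime] (h : Loc p r m) (hN : p ^ e * N = m + κ) :
    (X ^ r - 1 : (ZMod p)[X]) ∣ (X ^ p ^ e - 1) ^ N - (X - 1) ^ κ * (X ^ m - 1) := by
  have h1 : ((X : (ZMod p)[X]) ^ p ^ e - 1) ^ N = (X - 1) ^ κ * (X - 1) ^ m := by
    rw [← pow_add, add_comm κ m, ← hN, pow_mul]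
    congr 1
    have := sub_pow_expChar_pow (R := (ZMod p)[X]) (p := p) (n := e) X 1
    rw [one_pow] at this
    exact this.symm
  rw [h1, ← mul_sub]
  exact Dvd.dvd.mul_left h _

end Pool.Agent.Helper49.Agr
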