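import Pool.Agent.Helper49.Agr.Defs

/-!
AGR LEMT.  `c p M i` = coefficient of `X^i` in `(X-1)^M` over `ZMod p` (`Defs.lean`; `c_eq`, `c_ne_iff`,
`c_zero_of_lt`, `pow_eq_sum`).  The lemma: if `x : ℕ → B` is multiplicative 'on the support of
`(X-1)^M`' then `∑ c_M(i) x(i) = ∏_{l ∈ L} (x(p^l) - 1)` with `∑_{l ∈ L} p^l = M`.

PROOF.  Strong induction on `M` (for all `x` at once).
* `M = 0`: `L = 0`; `c p 0 0 = 1`, `x 0 = 1`.
* `p ∣ M`, `M = p * M' > 0`: `(X-1)^M = (X^p - 1)^M'` (`sub_pow_expChar`), i.e. `= expand p ((X-1)^M')`,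
  so `c p M i = c p M' (i/p)` if `p ∣ i` and `0` otherwise (`Polynomial.coeff_expand`).  Apply the
  induction hypothesis to `M'` and `x' i := x (p * i)`; `L := L'.map (· + 1)`.  (The sum over
  `range (M+1)` reduces to the multiples of `p`: e.g. `Finset.sum_nbij'`/`sum_image`, or write both
  sums as `Polynomial.sum` of the polynomial.)
* `p ∤ M`, `M = M' + 1`.  From `M * C(M-1,i) = (i+1) C(M,i+1) = (M-i) C(M,i)` (`Nat.add_one_mul_choose_eq`,
  `Nat.choose_mul_succ_eq`) and `(M : ZMod p) ≠ 0`:  `c p M' i ≠ 0 → c p M i ≠ 0 ∧ c p M (i+1) ≠ 0`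
  (use `c_ne_iff`), also `c p M 1 ≠ 0`.  So `x` is multiplicative on the support of `(X-1)^M'`, and
  `x (i+1) = x i * x 1` whenever `c p M' i ≠ 0`.  Since `(X-1)^M = (X-1)^M' * (X-1)` we have
  `c p M (i+1) = c p M' i - c p M' (i+1)` and `c p M 0 = - c p M' 0`, so
  `∑ c_M(i) x(i) = ∑ c_{M'}(i) x(i+1) - ∑ c_{M'}(i) x(i) = (x(1) - 1) ∑ c_{M'}(i) x(i)`.
  `L := 0 ::ₘ L'` (`p^0 = 1`).
-/

set_option autoImplicit false

namespace Pool.Agent.Helper49.Agr

open Polynomial

lemma c_mul_of (p : ℕ) [Fact p.Prime] (M' i : ℕ) :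
    c p (p * M') i = if p ∣ i then c p M' (i / p) else 0 := by
  have h1 : ((X - 1 : (ZMod p)[X]) ^ (p * M')) = expand (ZMod p) p ((X - 1) ^ M') := by
    rw [pow_mul, sub_pow_expChar, one_pow, map_pow, map_sub, expand_X, map_one]
  unfold c
  rw [h1, coeff_expand (Nat.Prime.pos Fact.out)]

lemma c_ne_of_succ (p : ℕ) [Fact p.Prime] {M' : ℕ} (hp : ¬ p ∣ M' + 1) {i : ℕ}
    (h : c p M' i ≠ 0) : c p (M' + 1) i ≠ 0 ∧ c p (M' + 1) (i + 1) ≠ 0 := by
  have hM : ((M' + 1 : ℕ) : ZMod p) ≠ 0 := by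
    intro h0
    exact hp ((ZMod.natCast_eq_zero_iff _ _).mp h0)
  have hi : i ≤ M' := by
    by_contra hlt
    exact h (c_zero_of_lt p (not_le.mp hlt))
  rw [c_ne_iff] at h
  constructor
  · rw [c_ne_iff]
    intro h0
    have h1 := Nat.choose_mul_succ_eq M' i
    have h2 : ((M'.choose i : ℕ) : ZMod p) * ((M' + 1 : ℕ) : ZMod p) =
        (((M' + 1).choose i : ℕ) : ZMod p) * ((M' + 1 - i : ℕ) : ZMod p) := by
      exact_mod_cast congrArg (Nat.cast : ℕ → ZMod p) h1
    rw [h0, zero_mul] at h2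
    exact (mul_ne_zero h hM) h2
  · rw [c_ne_iff]
    intro h0
    have h1 := Nat.add_one_mul_choose_eq M' i
    have h2 : ((M' + 1 : ℕ) : ZMod p) * ((M'.choose i : ℕ) : ZMod p) =
        (((M' + 1).choose (i + 1) : ℕ) : ZMod p) * ((i + 1 : ℕ) : ZMod p) := by
      exact_mod_cast congrArg (Nat.cast : ℕ → ZMod p) h1
    rw [h0, zero_mul] at h2
    exact (mul_ne_zero hM h) h2

lemma c_succ_succ (p M' i : ℕ) : c p (M' + 1) (i + 1) = c p M' i - c p M' (i + 1) := by
  unfold c
  rw [pow_succ, mul_sub, coeff_sub, coeff_mul_X, mul_one]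

lemma c_succ_zero (p M' : ℕ) : c p (M' + 1) 0 = - c p M' 0 := by
  unfold c
  rw [pow_succ, mul_sub, coeff_sub, coeff_mul_X_zero, mul_one, zero_sub]

theorem lemT (p : ℕ) [Fact p.Prime] (M : ℕ) : ∀ {B : Type} [CommRing B] [Algebra (ZMod p) B]
    (x : ℕ → B), x 0 = 1 →
    (∀ i j, c p M i ≠ 0 → c p M j ≠ 0 → c p M (i + j) ≠ 0 → x (i + j) = x i * x j) →
    ∃ L : Multiset ℕ, (L.map (fun l => p ^ l)).sum = M ∧ (∀ l ∈ L, c p M (p ^ l) ≠ 0) ∧
      ∑ i ∈ Finset.range (M + 1), c p M i • x i = (L.map (fun l => x (p ^ l) - 1)).prod := by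
  induction M using Nat.strong_induction_on with
  | _ M ih =>
  intro B _ _ x h0 hx
  have hpp : p.Prime := Fact.out
  rcases Nat.eq_zero_or_pos M with rfl | hM
  · refine ⟨0, by simp, by simp, ?_⟩
    simp [c_eq, h0]
  by_cases hp : p ∣ M
  · obtain ⟨M', rfl⟩ := hp
    have hM' : 0 < M' := Nat.pos_of_mul_pos_left hM
    have hlt : M' < p * M' := by nlinarith [hpp.two_le]
    have hc : ∀ j, c p (p * M') (p * j) = c p M' j := by
      intro j
      rw [c_mul_of, if_pos (dvd_mul_right p j), Nat.mul_div_cancel_left j hpp.pos]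
    obtain ⟨L, hL1, hL2, hL3⟩ := ih M' hlt (fun i => x (p * i)) (by simpa using h0)
      (fun i j hi hj hij => by
        simp only [mul_add]
        apply hx
        · rwa [hc]
        · rwa [hc]
        · rwa [← mul_add, hc])
    refine ⟨L.map (· + 1), ?_, ?_, ?_⟩
    · rw [Multiset.map_map]
      have h1 : ((fun l => p ^ l) ∘ (· + 1)) = fun l => p * p ^ l := by
        funext l
        simp [pow_succ, mul_comm]
      rw [h1, Multiset.sum_map_mul_left, hL1]
    · intro l hl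
      rw [Multiset.mem_map] at hl
      obtain ⟨a, ha, rfl⟩ := hl
      rw [pow_succ, mul_comm (p ^ a) p, hc]
      exact hL2 a ha
    · rw [Multiset.map_map]
      have h1 : ((fun l => x (p ^ l) - 1) ∘ (· + 1)) = fun l => x (p * p ^ l) - 1 := by
        funext l
        simp [pow_succ, mul_comm]
      rw [h1, ← hL3]
      symm
      refine Finset.sum_of_injOn (fun j => p * j) ?_ ?_ ?_ ?_
      · intro a _ b _ hab
        exact Nat.eq_of_mul_eq_mul_left hpp.pos hab
      · intro a ha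
        simp only [Finset.coe_range, Set.mem_Iio] at ha ⊢
        nlinarith [hpp.pos, Nat.mul_le_mul_left p (Nat.lt_succ_iff.mp ha)]
      · intro i hi hni
        rw [c_mul_of, if_neg, zero_smul]
        rintro ⟨j, rfl⟩
        apply hni
        refine ⟨j, ?_, rfl⟩
        simp only [Finset.coe_range, Set.mem_Iio]
        rw [Finset.mem_range] at hi
        have := Nat.le_of_mul_le_mul_left (Nat.lt_succ_iff.mp hi) hpp.pos
        omega
      · intro j _
        simp only [hc]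
  · obtain ⟨M', rfl⟩ : ∃ M', M = M' + 1 := ⟨M - 1, by omega⟩
    have hne : ∀ {i}, c p M' i ≠ 0 → c p (M' + 1) i ≠ 0 ∧ c p (M' + 1) (i + 1) ≠ 0 :=
      fun h => c_ne_of_succ p hp h
    have h00 : c p M' 0 ≠ 0 := by
      rw [c_ne_iff]; simp
    obtain ⟨L, hL1, hL2, hL3⟩ := ih M' (Nat.lt_succ_self _) x h0
      (fun i j hi hj hij => hx i j (hne hi).1 (hne hj).1 (hne hij).1)
    have hstep : ∀ i, c p M' i ≠ 0 → x (i + 1) = x i * x 1 := fun i hi =>
      hx i 1 (hne hi).1 (by simpa using (hne h00).2) (hne hi).2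
    refine ⟨0 ::ₘ L, ?_, ?_, ?_⟩
    · simp [hL1, add_comm]
    · intro l hl
      rw [Multiset.mem_cons] at hl
      rcases hl with rfl | hl
      · simpa using (hne h00).2
      · exact (hne (hL2 l hl)).1
    · rw [Multiset.map_cons, Multiset.prod_cons, ← hL3, pow_zero]
      rw [Finset.sum_range_succ' _ (M' + 1)]
      have h1 : ∀ i ∈ Finset.range (M' + 1), c p (M' + 1) (i + 1) • x (i + 1) =
          x 1 * (c p M' i • x i) - c p M' (i + 1) • x (i + 1) := by
        intro i _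
        rw [c_succ_succ, sub_smul]
        congr 1
        by_cases hi : c p M' i = 0
        · simp [hi]
        · rw [hstep i hi, mul_comm (x i) (x 1), mul_smul_comm]
      rw [Finset.sum_congr rfl h1, Finset.sum_sub_distrib, ← Finset.mul_sum, sub_mul, one_mul,
        c_succ_zero, neg_smul]
      have h2 : ∑ i ∈ Finset.range (M' + 1), c p M' i • x i =
          ∑ i ∈ Finset.range (M' + 1), c p M' (i + 1) • x (i + 1) + c p M' 0 • x 0 := by
        rw [← Finset.sum_range_succ' (fun i => c p M' i • x i) (M' + 1),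
          Finset.sum_range_succ _ (M' + 1), c_zero_of_lt p (Nat.lt_succ_self M'), zero_smul,
          add_zero]
      rw [h2]
      ring

end Pool.Agent.Helper49.Agr
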