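import Pool.Agent.Helper49.Agr.Reduc
import Pool.Agent.Helper49.Agr.Case1
import Pool.Agent.Helper49.Agr.Case2
import Pool.Agent.Helper49.Agr.Case3

/-!
AGR LOCAL: the local theorem.
-/

set_option autoImplicit false

namespace Pool.Agent.Helper49.Agr

open Polynomial

theorem local_thm (p : ℕ) [hp : Fact p.Prime] (r m : ℕ) (hpr : Nat.Coprime p r)
    (hmr : Nat.Coprime m r) (hpm : ¬ p ∣ m) (hm : 2 ≤ m) (h8 : 8 * m ≤ r ^ 2) (h : Loc p r m) :
    Concl p r m := by
  set k := m / r with hk
  set s := m % r with hs
  have hms : r * k + s = m := Nat.div_add_mod m r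
  have hr4 : 4 ≤ r := by nlinarith
  have hsr : s < r := Nat.mod_lt _ (by omega)
  have hs1 : 1 ≤ s := by
    by_contra h0
    have h1 : r ∣ m := Nat.dvd_of_mod_eq_zero (by omega)
    have h2 : r ∣ 1 := by
      have := Nat.dvd_gcd h1 (dvd_refl r)
      rwa [hmr] at this
    have := Nat.le_of_dvd one_pos h2
    omega
  have h8k : 8 * k < r := by
    by_contra hc
    have h1 : r ≤ 8 * k := by omega
    nlinarith
  rcases Nat.lt_or_ge s (2 * k + 3) with hcase | hcase
  · -- small residue
    apply case3 p r m hpr hmr hpm hm _ h
    rw [← hk, ← hs]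
    rcases Nat.eq_zero_or_pos k with h0 | h0
    · have hs2 : s = 2 := by
        have : m = s := by rw [← hms, h0]; ring
        omega
      have hr5 : r ≠ 4 := by
        intro h4
        have : m = 2 := by rw [← hms, h0, hs2]; ring
        rw [this, h4] at hmr
        revert hmr
        decide
      omega
    · rcases Nat.lt_or_ge k 2 with h2 | h2
      · have hk1 : k = 1 := by omega
        rw [hk1] at hms hcase h8k ⊢
        have h3 : 8 * (r + s) ≤ r ^ 2 := by
          have : m = r + s := by rw [← hms]; ring
          rw [← this]; exact h8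
        by_contra hc
        have h5 : r ≤ 2 * (s + 1) := by omega
        have h6 : s ≤ 4 := by omega
        have h7 : r ≤ 10 := by omega
        interval_cases r <;> omega
      · omega
  · -- generic residue
    obtain ⟨e, he1, he2⟩ := reduc p (m + k) k s hcase (by
      intro i hi
      by_contra hc
      push Not at hc
      obtain ⟨b, hb, hb'⟩ := supp p r m (by omega) hpr h i hi
      have hir : i % r = i := Nat.mod_eq_of_lt (by omega)
      rcases hb' with hb' | hb'
      · have h1 : i % r = b % r := hb'
        rw [hir, Nat.mod_eq_of_lt (by omega : b < r)] at h1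
        omega
      · have h1 : i % r = (m + b) % r := hb'
        have h2 : (m + b) % r = (s + b) % r := by
          conv_lhs => rw [← hms, add_assoc, Nat.mul_add_mod]
        rw [hir, h2] at h1
        rcases Nat.lt_or_ge (s + b) r with h3 | h3
        · rw [Nat.mod_eq_of_lt h3] at h1
          omega
        · have h4 : (s + b) % r = s + b - r := by
            rw [Nat.mod_eq_sub_mod h3, Nat.mod_eq_of_lt (by omega)]
          omega)
    set t := (m + k) % p ^ e with ht
    set N := (m + k) / p ^ e with hNdef
    have hdm : p ^ e * N + t = m + k := Nat.div_add_mod _ _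
    clear_value t N
    have hN : p ^ e * N = m + (k - t) := by omega
    have hκ1 : 1 ≤ k - t := by
      by_contra h0
      have h1 : k - t = 0 := by omega
      rw [h1, add_zero] at hN
      have he0 : e ≠ 0 := by
        rintro rfl
        simp at he1
      exact hpm (hN ▸ (dvd_pow_self p he0).mul_right N)
    have h2N : 2 * N < r := by
      by_contra hc
      have h1 : (2 * k + 3) * N ≤ p ^ e * N := Nat.mul_le_mul_right _ he1
      have h2 : r ≤ 2 * N := by omega
      have h3 : (2 * k + 3) * N ≤ r * k + s + k := by omega
      nlinarith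
    have hκk : k - t ≤ k := Nat.sub_le _ _
    generalize k - t = κ at hN hκ1 hκk
    rcases Nat.lt_or_ge (s + κ) r with h5 | h5
    · exact case1 p r m e N κ hpr hN hκ1 (by omega) h2N (by omega) h5 h
    · exact case2 p r m e N κ hpr hN hκ1 (by omega) h2N (by omega) h5 h

end Pool.Agent.Helper49.Agr
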