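import Pool.Agent.Helper49.Agr.Defs

/-!
AGR RED.  A statement on binomial coefficients mod `p` (Lucas).  If `C(M,i) ≡ 0` mod `p` for all `i` with
`k < i < s`, where `s ≥ 2k+3`, then for the least power `P = p^e ≥ 2k+3` we have `M % P ≤ k`.

PROOF.  Let `e` be least with `2k+3 ≤ p^e` (`Nat.find`, exists since `p ≥ 2`).  Suppose `M % p^e > k`.  Let
`j` be least with `M % p^j > k`; `1 ≤ j ≤ e` (`M % p^0 = 0`).  Put `q = p^(j-1)`, so `q < 2k+3` (as
`j - 1 < e`), `t = M % q ≤ k` (minimality of `j`), `d = (M / q) % p`; `M % (q*p) = t + q*d`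
(`Nat.mod_mul`), so `k < t + q*d`, `1 ≤ d < p`.
* If `k < q`: `i := q` satisfies `k < i ≤ 2k+2 < s` and `C(M, q) ≢ 0`: contradiction.
* If `q ≤ k`: let `d'` be the least number with `k < t + q*d'` (`d' = (k-t)/q + 1`); `1 ≤ d' ≤ d` and
  `i := t + q*d' ≤ k + q ≤ 2k < s`, and `C(M, i) ≢ 0`: contradiction.
The nonvanishing: for `t' = M % q` or `t' = 0` and `d' ≤ d = (M/q) % p`, `C(M, t' + q*d') ≢ 0` mod `p`.
Lucas: `C(M, i) ≡ C(M % p, i % p) * C(M / p, i / p)` (`Choose.choose_modEq_choose_mod_mul_choose_div_nat`),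
hence by induction on the exponent of `q = p^f`: `C(M, t' + q*d') ≡ C(M % q, t') * C(M / q, d')` up to
nonvanishing when `t' < q`, and `C(M/q, d') ≡ C(d, d') * C(M/q/p, 0) = C(d,d')`, `d' ≤ d < p`, which is not
divisible by `p` (it divides `d!`); `C(M % q, t') = 1` for `t' = M % q` or `t' = 0`.
(`c_ne_iff` in `Defs.lean` translates between `c` and binomial coefficients.)
-/

set_option autoImplicit false

namespace Pool.Agent.Helper49.Agr

open Polynomial

lemma nvLt (p : ℕ) [Fact p.Prime] {n d : ℕ} (hn : n < p) (hd : d ≤ n) :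
    (n.choose d : ZMod p) ≠ 0 := by
  have hp : p.Prime := Fact.out
  intro h0
  have h1 : p ∣ n.choose d := (ZMod.natCast_eq_zero_iff _ _).mp h0
  have h2 : p ∣ n.factorial := by
    rw [← Nat.choose_mul_factorial_mul_factorial hd]
    exact Dvd.dvd.mul_right (Dvd.dvd.mul_right h1 _) _
  have h3 := (Nat.Prime.dvd_factorial hp).mp h2
  omega

lemma lucasNe (p : ℕ) [Fact p.Prime] {M i : ℕ} (h1 : ((M % p).choose (i % p) : ZMod p) ≠ 0)
    (h2 : ((M / p).choose (i / p) : ZMod p) ≠ 0) : (M.choose i : ZMod p) ≠ 0 := by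
  have h := (ZMod.natCast_eq_natCast_iff _ _ _).mpr
    (Choose.choose_modEq_choose_mod_mul_choose_div_nat (n := M) (k := i) (p := p))
  rw [h, Nat.cast_mul]
  exact mul_ne_zero h1 h2

lemma nv (p : ℕ) [Fact p.Prime] (f : ℕ) : ∀ M t' d' : ℕ, (t' = M % p ^ f ∨ t' = 0) →
    d' ≤ (M / p ^ f) % p → (M.choose (t' + p ^ f * d') : ZMod p) ≠ 0 := by
  have hp : p.Prime := Fact.out
  induction f with
  | zero =>
    intro M t' d' ht hd
    have ht0 : t' = 0 := by
      rcases ht with h | h
      · simpa [Nat.mod_one] using h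
      · exact h
    subst ht0
    simp only [pow_zero, Nat.div_one, zero_add, one_mul] at hd ⊢
    have hMp : M % p < p := Nat.mod_lt _ hp.pos
    apply lucasNe
    · rw [Nat.mod_eq_of_lt (lt_of_le_of_lt hd hMp)]
      exact nvLt p hMp hd
    · rw [Nat.div_eq_of_lt (lt_of_le_of_lt hd hMp)]
      simp
  | succ f ih =>
    intro M t' d' ht hd
    have e1 : p ^ (f + 1) * d' = p * (p ^ f * d') := by ring
    have hmod : (t' + p ^ (f + 1) * d') % p = t' % p := by
      rw [e1, Nat.add_mul_mod_self_left]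
    have hdiv : (t' + p ^ (f + 1) * d') / p = t' / p + p ^ f * d' := by
      rw [e1, Nat.add_mul_div_left _ _ hp.pos]
    have hd' : d' ≤ (M / p / p ^ f) % p := by
      rw [Nat.div_div_eq_div_mul, ← pow_succ']
      exact hd
    have hpow : p ^ (f + 1) = p * p ^ f := by ring
    apply lucasNe
    · rw [hmod]
      rcases ht with rfl | rfl
      · rw [Nat.mod_mod_of_dvd M (Dvd.intro _ hpow.symm)]
        simp
      · simp
    · rw [hdiv]
      apply ih
      · rcases ht with rfl | rfl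
        · left
          rw [hpow, Nat.mod_mul_right_div_self]
        · right; simp
      · exact hd'

theorem reduc (p : ℕ) [Fact p.Prime] (M k s : ℕ) (hs : 2 * k + 3 ≤ s)
    (h : ∀ i, c p M i ≠ 0 → i ≤ k ∨ s ≤ i) : ∃ e, 2 * k + 3 ≤ p ^ e ∧ M % p ^ e ≤ k := by
  classical
  have hp : p.Prime := Fact.out
  have hex : ∃ e, 2 * k + 3 ≤ p ^ e :=
    ⟨2 * k + 3, (Nat.lt_pow_self hp.one_lt).le⟩
  refine ⟨Nat.find hex, Nat.find_spec hex, ?_⟩
  by_contra hcon
  push Not at hcon
  have hex2 : ∃ j, k < M % p ^ j := ⟨_, hcon⟩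
  have hj := Nat.find_spec hex2
  have hje : Nat.find hex2 ≤ Nat.find hex := Nat.find_min' hex2 hcon
  obtain ⟨f, hf⟩ : ∃ f, Nat.find hex2 = f + 1 := by
    refine ⟨Nat.find hex2 - 1, ?_⟩
    have : Nat.find hex2 ≠ 0 := by
      intro h0
      rw [h0, pow_zero, Nat.mod_one] at hj
      omega
    omega
  rw [hf] at hj
  have hq : p ^ f < 2 * k + 3 := by
    have := Nat.find_min hex (m := f) (by omega)
    omega
  have ht : M % p ^ f ≤ k := by
    have := Nat.find_min hex2 (m := f) (by omega)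
    omega
  rw [pow_succ, Nat.mod_mul] at hj
  have hqpos : 0 < p ^ f := pow_pos hp.pos f
  have hd : 1 ≤ (M / p ^ f) % p := by
    rcases Nat.eq_zero_or_pos ((M / p ^ f) % p) with h0 | h0
    · rw [h0] at hj; omega
    · exact h0
  rcases lt_or_ge k (p ^ f) with hk | hk
  · have h1 := nv p f M 0 1 (Or.inr rfl) hd
    rw [zero_add, mul_one] at h1
    rcases h _ ((c_ne_iff p M _).mpr h1) with h2 | h2 <;> omega
  · set q := p ^ f with hqdef
    set t := M % q with htdef
    set d := (M / q) % p with hddef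
    have hdm : q * ((k - t) / q) ≤ k - t := Nat.mul_div_le _ _
    have hlt : k - t < q * ((k - t) / q + 1) := by
      rw [mul_add, mul_one]
      have := Nat.div_add_mod (k - t) q
      have := Nat.mod_lt (k - t) hqpos
      omega
    have hd' : (k - t) / q + 1 ≤ d := by
      by_contra hcc
      have h3 : d ≤ (k - t) / q := by omega
      have h4 : q * d ≤ q * ((k - t) / q) := Nat.mul_le_mul_left q h3
      omega
    have h1 := nv p f M t ((k - t) / q + 1) (Or.inl rfl) hd'
    have h5 : q * ((k - t) / q + 1) = q * ((k - t) / q) + q := by ring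
    rcases h _ ((c_ne_iff p M _).mpr h1) with h2 | h2
    · rw [← hqdef, h5] at h2; rw [h5] at hlt; omega
    · rw [← hqdef, h5] at h2; omega

end Pool.Agent.Helper49.Agr
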